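import Mathlib

/-!
Even entire functions as entire functions of the square.
-/

set_option autoImplicit false

open Complex Filter Topology Set

namespace Pool.Agent.H390.BL

/-- `F (√t)` -/
noncomputable def hs (F : ℂ → ℂ) (t : ℂ) : ℂ := F (t ^ (((2 : ℕ) : ℂ)⁻¹))

lemma sqrt_sq (t : ℂ) : (t ^ (((2 : ℕ) : ℂ)⁻¹)) ^ 2 = t := Complex.cpow_nat_inv_pow t two_ne_zero

lemma even_eq {F : ℂ → ℂ} (he : ∀ z, F (-z) = F z) {z w : ℂ} (h : z ^ 2 = w ^ 2) : F z = F w := by
  rcases sq_eq_sq_iff_eq_or_eq_neg.mp h with h1 | h1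
  · rw [h1]
  · rw [h1, he]

lemma hs_of_sq {F : ℂ → ℂ} (he : ∀ z, F (-z) = F z) {z t : ℂ} (h : z ^ 2 = t) : hs F t = F z := by
  unfold hs
  exact even_eq he (by rw [sqrt_sq, h])

lemma hs_sq {F : ℂ → ℂ} (he : ∀ z, F (-z) = F z) (z : ℂ) : hs F (z ^ 2) = F z := hs_of_sq he rfl

lemma hs_differentiable {F : ℂ → ℂ} (hF : Differentiable ℂ F) (he : ∀ z, F (-z) = F z) :
    Differentiable ℂ (hs F) := by
  have h1 : ∀ t : ℂ, t ∈ slitPlane → DifferentiableAt ℂ (hs F) t := by
    intro t ht
    unfold hs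
    exact (hF _).comp t (DifferentiableAt.cpow_const differentiableAt_id ht)
  have h2 : ∀ t : ℂ, t ≠ 0 → DifferentiableAt ℂ (hs F) t := by
    intro t ht
    by_cases hs' : t ∈ slitPlane
    · exact h1 t hs'
    · have hneg : -t ∈ slitPlane := by
        rw [mem_slitPlane_iff] at hs' ⊢
        push Not at hs'
        obtain ⟨h3, h4⟩ := hs'
        left
        rw [neg_re]
        rcases h3.lt_or_eq with h5 | h5
        · linarith
        · exfalso; exact ht (Complex.ext h5 h4)
      have h3 : hs F = fun s => F (I * ((-s) ^ (((2 : ℕ) : ℂ)⁻¹))) := by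
        funext s
        apply hs_of_sq he
        rw [mul_pow, I_sq, sqrt_sq]; ring
      rw [h3]
      apply (hF _).comp t
      apply DifferentiableAt.const_mul
      exact DifferentiableAt.cpow_const differentiableAt_id.neg hneg
  have h0 : ContinuousAt (hs F) 0 := by
    unfold hs
    apply hF.continuous.continuousAt.comp
    have := Complex.continuousAt_cpow_zero_of_re_pos (z := (((2 : ℕ) : ℂ)⁻¹)) (by norm_num)
    exact this.comp (f := fun t : ℂ => (t, (((2 : ℕ) : ℂ)⁻¹))) (by fun_prop)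
  have h3 := (Complex.differentiableOn_compl_singleton_and_continuousAt_iff (f := hs F) (c := 0)
    (s := univ) univ_mem).mp ⟨fun t ht => (h2 t (by simpa using ht.2)).differentiableWithinAt, h0⟩
  exact differentiableOn_univ.mp h3

end Pool.Agent.H390.BL
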