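import Mathlib
import Pool.Agent.H382R2.Rect
import Pool.Agent.H390.BL.Sqrt

/-!
The contour integral behind the interpolation formula.
-/

set_option autoImplicit false

open Complex Filter Topology Set

namespace Pool.Agent.H390.BL

lemma im_le_of_sq {z w : ℂ} {s : ℝ} (hs : 0 ≤ s) (h : z ^ 2 = w ^ 2 - s) :
    z.im ^ 2 ≤ w.im ^ 2 + s ∧ w.im ^ 2 ≤ z.im ^ 2 := by
  have h1 := congrArg Complex.re h
  have h2 := congrArg Complex.im h
  simp only [pow_two, mul_re, mul_im, sub_re, sub_im, ofReal_re, ofReal_im, sub_zero] at h1 h2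
  constructor
  · by_contra hn
    push Not at hn
    have h3 : w.re ^ 2 < z.re ^ 2 := by nlinarith
    have h4 : w.im ^ 2 < z.im ^ 2 := by nlinarith
    have h5 : z.re * z.im = w.re * w.im := by linarith
    have h6 : z.re ^ 2 * z.im ^ 2 = w.re ^ 2 * w.im ^ 2 := by
      rw [← mul_pow, h5, mul_pow]
    nlinarith [sq_nonneg w.re, sq_nonneg z.im, sq_nonneg w.im, mul_pos (sub_pos.mpr h3) (lt_of_le_of_lt (sq_nonneg w.im) h4)]
  · by_contra hn
    push Not at hn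
    have h3 : z.re ^ 2 < w.re ^ 2 := by nlinarith
    have h5 : z.re * z.im = w.re * w.im := by linarith
    have h6 : z.re ^ 2 * z.im ^ 2 = w.re ^ 2 * w.im ^ 2 := by
      rw [← mul_pow, h5, mul_pow]
    nlinarith [sq_nonneg z.re, sq_nonneg z.im, sq_nonneg w.im, mul_pos (sub_pos.mpr h3) (lt_of_le_of_lt (sq_nonneg z.im) hn)]

/-- `sin √t / √t` -/
noncomputable def E : ℂ → ℂ := hs (dslope Complex.sin 0)

lemma sinc_even (z : ℂ) : dslope Complex.sin 0 (-z) = dslope Complex.sin 0 z := by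
  by_cases h : z = 0
  · simp [h]
  · rw [dslope_of_ne _ h, dslope_of_ne _ (neg_ne_zero.mpr h), slope_def_field, slope_def_field]
    simp

lemma sinc_diff : Differentiable ℂ (dslope Complex.sin 0) := by
  have := (Complex.differentiableOn_dslope (f := Complex.sin) (c := 0) (s := univ) univ_mem).2
    Complex.differentiable_sin.differentiableOn
  exact differentiableOn_univ.mp this

lemma E_diff : Differentiable ℂ E := hs_differentiable sinc_diff sinc_even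

lemma E_sq {w : ℂ} (hw : w ≠ 0) : E (w ^ 2) = Complex.sin w / w := by
  unfold E
  rw [hs_sq sinc_even, dslope_of_ne _ hw, slope_def_field]
  simp

lemma norm_sin_sq (w : ℂ) : ‖Complex.sin w‖ ^ 2 = Real.sin w.re ^ 2 + Real.sinh w.im ^ 2 := by
  have h1 : Complex.sin w = ((Real.sin w.re * Real.cosh w.im : ℝ) : ℂ) +
      ((Real.cos w.re * Real.sinh w.im : ℝ) : ℂ) * I := by
    rw [Complex.sin_eq w]
    push_cast
    ring
  rw [h1, ← Complex.normSq_eq_norm_sq, Complex.normSq_add_mul_I]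
  have h2 := Real.sin_sq_add_cos_sq w.re
  have h3 := Real.cosh_sq w.im
  have h4 : Real.cos w.re ^ 2 = 1 - Real.sin w.re ^ 2 := by linarith
  rw [mul_pow, mul_pow, h3, h4]
  ring

lemma exp_abs_le {v : ℝ} : Real.exp |v| / 2 ≤ Real.cosh v := by
  rw [← Real.cosh_abs, Real.cosh_eq]
  have := Real.exp_pos (-|v|)
  linarith

lemma exp_abs_le' {v : ℝ} (hv : 1 ≤ |v|) : Real.exp |v| / 4 ≤ |Real.sinh v| := by
  have h1 : |Real.sinh v| = Real.sinh |v| := Real.abs_sinh v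
  rw [h1, Real.sinh_eq]
  have h2 : Real.exp (-|v|) ≤ 1 := Real.exp_le_one_iff.mpr (by linarith [abs_nonneg v])
  have h3 : |v| + 1 ≤ Real.exp |v| := Real.add_one_le_exp _
  linarith

lemma sin_lower {w : ℂ} (h : Real.sin w.re ^ 2 = 1 ∨ 1 ≤ |w.im|) :
    Real.exp |w.im| / 4 ≤ ‖Complex.sin w‖ := by
  have h1 := norm_sin_sq w
  have h0 := Real.exp_pos |w.im|
  rcases h with h | h
  · rw [h] at h1
    have h2 : ‖Complex.sin w‖ ^ 2 = Real.cosh w.im ^ 2 := by rw [h1, Real.cosh_sq]; ring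
    have h3 := exp_abs_le (v := w.im)
    have h4 := Real.cosh_pos w.im
    have h5 : ‖Complex.sin w‖ = Real.cosh w.im := by
      rwa [pow_left_inj₀ (norm_nonneg _) h4.le two_ne_zero] at h2
    linarith
  · have h3 := exp_abs_le' h
    have h4 : |Real.sinh w.im| ^ 2 ≤ ‖Complex.sin w‖ ^ 2 := by
      rw [h1, sq_abs]; nlinarith [sq_nonneg (Real.sin w.re)]
    have h5 := (pow_le_pow_iff_left₀ (abs_nonneg _) (norm_nonneg _) two_ne_zero).mp h4
    linarith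

section main

variable (a : ℝ) (h : ℂ → ℂ)

/-- numerator before division -/
noncomputable def gg (t : ℂ) : ℂ := h (t - a ^ 2) - h 0 * E t / E (a ^ 2)

/-- divided by `t - a²` -/
noncomputable def kk : ℂ → ℂ := dslope (gg a h) ((a : ℂ) ^ 2)

noncomputable def HH (w : ℂ) : ℂ := kk a h (w ^ 2) * w ^ 2

noncomputable def ff (w : ℂ) : ℂ := (w ^ 2 - a ^ 2) * Complex.sin w

variable {a h}

lemma gg_diff (hh : Differentiable ℂ h) : Differentiable ℂ (gg a h) := by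
  unfold gg
  apply Differentiable.sub
  · exact hh.comp (by fun_prop)
  · exact (E_diff.const_mul _).div_const _

lemma E_a_ne (ha : 0 < a) (ha' : a < Real.pi) : E ((a : ℂ) ^ 2) ≠ 0 := by
  have h1 : (a : ℂ) ≠ 0 := ofReal_ne_zero.mpr ha.ne'
  rw [E_sq h1]
  have h2 : Complex.sin (a : ℂ) ≠ 0 := by
    rw [← ofReal_sin]
    exact ofReal_ne_zero.mpr (Real.sin_pos_of_pos_of_lt_pi ha ha').ne'
  exact div_ne_zero h2 h1

lemma gg_a (ha : 0 < a) (ha' : a < Real.pi) : gg a h ((a : ℂ) ^ 2) = 0 := by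
  unfold gg
  rw [sub_self, mul_div_cancel_right₀ _ (E_a_ne ha ha'), sub_self]

lemma kk_diff (hh : Differentiable ℂ h) : Differentiable ℂ (kk a h) := by
  have := (Complex.differentiableOn_dslope (f := gg a h) (c := (a : ℂ) ^ 2) (s := univ) univ_mem).2
    (gg_diff hh).differentiableOn
  exact differentiableOn_univ.mp this

lemma kk_of_ne (ha : 0 < a) (ha' : a < Real.pi) {t : ℂ} (ht : t ≠ (a : ℂ) ^ 2) :
    kk a h t = gg a h t / (t - a ^ 2) := by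
  unfold kk
  rw [dslope_of_ne _ ht, slope_def_field, gg_a ha ha', sub_zero]

lemma bound_bd (ha : 0 < a) (ha' : a < Real.pi) {M : ℝ} (hM : 0 ≤ M)
    (hgr : ∀ z, ‖h (z ^ 2)‖ ≤ M * Real.exp |z.im|) {R : ℝ} (hR : 5 ≤ R) {w : ℂ} (hw : R ≤ ‖w‖)
    (hs' : Real.sin w.re ^ 2 = 1 ∨ 1 ≤ |w.im|) :
    ‖HH a h w / ff a w‖ ≤ 4 * (4 * M * Real.exp a + ‖h 0‖ / ‖E (a ^ 2)‖) / R ^ 2 := by
  have hπ := Real.pi_lt_d2
  have hR0 : 0 < R := by linarith
  have hw0 : w ≠ 0 := by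
    intro h0; rw [h0, norm_zero] at hw; linarith
  have hwn : 0 < ‖w‖ := norm_pos_iff.mpr hw0
  have hsl := sin_lower hs'
  have hexp := Real.exp_pos |w.im|
  have hsin : 0 < ‖Complex.sin w‖ := by linarith
  have hE := norm_pos_iff.mpr (E_a_ne ha ha')
  -- the distance to `a²`
  have hd : ‖w‖ ^ 2 / 2 ≤ ‖w ^ 2 - (a : ℂ) ^ 2‖ := by
    have h1 : ‖w ^ 2‖ - ‖(a : ℂ) ^ 2‖ ≤ ‖w ^ 2 - (a : ℂ) ^ 2‖ := norm_sub_norm_le _ _
    rw [norm_pow, norm_pow, norm_real, Real.norm_eq_abs, abs_of_pos ha] at h1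
    have h2 : a ^ 2 ≤ 10 := by nlinarith
    have h3 : 25 ≤ ‖w‖ ^ 2 := by nlinarith
    linarith
  have hd0 : 0 < ‖w ^ 2 - (a : ℂ) ^ 2‖ := lt_of_lt_of_le (by positivity) hd
  have hne : w ^ 2 ≠ (a : ℂ) ^ 2 := by
    intro h0; rw [h0, sub_self, norm_zero] at hd0; exact lt_irrefl _ hd0
  have hg : ‖gg a h (w ^ 2)‖ ≤ (4 * M * Real.exp a + ‖h 0‖ / ‖E (a ^ 2)‖) * ‖Complex.sin w‖ := by
    have h1 : ‖gg a h (w ^ 2)‖ ≤ ‖h (w ^ 2 - a ^ 2)‖ + ‖h 0 * E (w ^ 2) / E (a ^ 2)‖ := norm_sub_le _ _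
    have h2 : ‖h (w ^ 2 - a ^ 2)‖ ≤ M * (Real.exp a * Real.exp |w.im|) := by
      set z : ℂ := (w ^ 2 - a ^ 2) ^ (((2 : ℕ) : ℂ)⁻¹) with hz
      have hz2 : z ^ 2 = w ^ 2 - ((a ^ 2 : ℝ) : ℂ) := by
        rw [hz, sqrt_sq]; push_cast; ring
      have h3 := (im_le_of_sq (sq_nonneg a) hz2).1
      have h4 : |z.im| ≤ a + |w.im| := by
        apply abs_le_of_sq_le_sq _ (by positivity)
        nlinarith [abs_nonneg w.im, sq_abs w.im]
      have h5 := hgr z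
      rw [hz2] at h5
      push_cast at h5
      refine h5.trans ?_
      rw [← Real.exp_add]
      exact mul_le_mul_of_nonneg_left (Real.exp_le_exp.mpr h4) hM
    have h3 : ‖h 0 * E (w ^ 2) / E (a ^ 2)‖ ≤ ‖h 0‖ / ‖E (a ^ 2)‖ * ‖Complex.sin w‖ := by
      rw [norm_div, norm_mul, E_sq hw0, norm_div]
      have h4 : ‖Complex.sin w‖ / ‖w‖ ≤ ‖Complex.sin w‖ := div_le_self hsin.le (by linarith)
      calc ‖h 0‖ * (‖Complex.sin w‖ / ‖w‖) / ‖E (a ^ 2)‖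
          ≤ ‖h 0‖ * ‖Complex.sin w‖ / ‖E (a ^ 2)‖ := by gcongr
        _ = _ := by ring
    have h4 : M * (Real.exp a * Real.exp |w.im|) ≤ 4 * M * Real.exp a * ‖Complex.sin w‖ := by
      have h5 : Real.exp |w.im| ≤ 4 * ‖Complex.sin w‖ := by linarith
      have h6 := Real.exp_pos a
      calc M * (Real.exp a * Real.exp |w.im|) ≤ M * (Real.exp a * (4 * ‖Complex.sin w‖)) := by gcongr
        _ = _ := by ring
    linarith
  have he : HH a h w / ff a w = gg a h (w ^ 2) * w ^ 2 / ((w ^ 2 - a ^ 2) ^ 2 * Complex.sin w) := by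
    unfold HH ff
    rw [kk_of_ne ha ha' hne]
    have h1 : w ^ 2 - (a : ℂ) ^ 2 ≠ 0 := sub_ne_zero.mpr hne
    have h2 : Complex.sin w ≠ 0 := norm_pos_iff.mp hsin
    field_simp
  rw [he, norm_div, norm_mul, norm_mul, norm_pow, norm_pow]
  set K := 4 * M * Real.exp a + ‖h 0‖ / ‖E (a ^ 2)‖ with hK
  have hK0 : 0 ≤ K := by positivity
  rw [div_le_div_iff₀ (by positivity) (by positivity)]
  have h1 : (‖w‖ ^ 2 / 2) ^ 2 ≤ ‖w ^ 2 - (a : ℂ) ^ 2‖ ^ 2 := by gcongr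
  have h2 : R ^ 2 ≤ ‖w‖ ^ 2 := by gcongr
  calc ‖gg a h (w ^ 2)‖ * ‖w‖ ^ 2 * R ^ 2 ≤ (K * ‖Complex.sin w‖) * ‖w‖ ^ 2 * ‖w‖ ^ 2 := by gcongr
    _ = 4 * K * ((‖w‖ ^ 2 / 2) ^ 2 * ‖Complex.sin w‖) := by ring
    _ ≤ 4 * K * (‖w ^ 2 - (a : ℂ) ^ 2‖ ^ 2 * ‖Complex.sin w‖) := by gcongr

end main

end Pool.Agent.H390.BL
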