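import Mathlib

/-!
Functions of exponential type bounded on the real line.
-/

set_option autoImplicit false

open Complex Filter Topology Set Bornology Asymptotics

namespace Pool.Agent.H390.BL

/-- entire of exponential type at most `σ` -/
def ExpType (σ : ℝ) (F : ℂ → ℂ) : Prop :=
  Differentiable ℂ F ∧ ∀ ε : ℝ, 0 < ε → ∃ A : ℝ, ∀ z : ℂ, ‖F z‖ ≤ A * Real.exp ((σ + ε) * ‖z‖)

lemma growth_half {σ : ℝ} (hσ : 0 ≤ σ) {F : ℂ → ℂ} (hF : ExpType σ F) {M : ℝ} (hM : ∀ x : ℝ, ‖F x‖ ≤ M)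
    {z : ℂ} (hz : 0 ≤ z.im) : ‖F z‖ ≤ M * Real.exp (σ * z.im) := by
  have key : ∀ ε : ℝ, 0 < ε → ‖F z‖ ≤ M * Real.exp ((σ + ε) * z.im) := by
    intro ε hε
    obtain ⟨A, hA⟩ := hF.2 ε hε
    have hA0 : 0 ≤ A := by
      have := hA 0
      simp only [norm_zero, mul_zero, Real.exp_zero, mul_one] at this
      exact (norm_nonneg _).trans this
    set G : ℂ → ℂ := fun ζ => F (I * ζ) * cexp (-((σ + ε : ℝ) : ℂ) * ζ) with hG
    have hGd : Differentiable ℂ G := by
      apply Differentiable.mul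
      · exact hF.1.comp (by fun_prop)
      · fun_prop
    have hGn : ∀ ζ : ℂ, ‖G ζ‖ ≤ A * Real.exp (2 * (σ + ε) * ‖ζ‖) := by
      intro ζ
      simp only [hG, norm_mul]
      have h1 := hA (I * ζ)
      rw [norm_mul, norm_I, one_mul] at h1
      have h2 : ‖cexp (-((σ + ε : ℝ) : ℂ) * ζ)‖ ≤ Real.exp ((σ + ε) * ‖ζ‖) := by
        rw [Complex.norm_exp]
        apply Real.exp_le_exp.mpr
        have h3 : (-((σ + ε : ℝ) : ℂ) * ζ).re = -(σ + ε) * ζ.re := by
          rw [← ofReal_neg, re_ofReal_mul]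
        rw [h3]
        have h4 := abs_re_le_norm ζ
        have h5 := neg_abs_le ζ.re
        nlinarith
      calc ‖F (I * ζ)‖ * ‖cexp (-((σ + ε : ℝ) : ℂ) * ζ)‖
          ≤ (A * Real.exp ((σ + ε) * ‖ζ‖)) * Real.exp ((σ + ε) * ‖ζ‖) :=
            mul_le_mul h1 h2 (norm_nonneg _) (by positivity)
        _ = A * Real.exp (2 * (σ + ε) * ‖ζ‖) := by
            rw [mul_assoc, ← Real.exp_add]; ring_nf
    have hPL := PhragmenLindelof.right_half_plane_of_bounded_on_real (f := G) (C := M)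
      (z := -I * z) hGd.diffContOnCl ?_ ?_ ?_ ?_
    · have e1 : I * (-I * z) = z := by
        rw [← mul_assoc, mul_neg, I_mul_I]; simp
      simp only [hG, e1, norm_mul] at hPL
      have e2 : ‖cexp (-((σ + ε : ℝ) : ℂ) * (-I * z))‖ = Real.exp (-((σ + ε) * z.im)) := by
        rw [Complex.norm_exp]
        congr 1
        have h3 : (-((σ + ε : ℝ) : ℂ) * (-I * z)).re = -(σ + ε) * (-I * z).re := by
          rw [← ofReal_neg, re_ofReal_mul]
        rw [h3]
        simp
        ring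
      rw [e2, Real.exp_neg, ← div_eq_mul_inv, div_le_iff₀ (Real.exp_pos _)] at hPL
      exact hPL
    · refine ⟨1, by norm_num, 2 * (σ + ε), ?_⟩
      apply IsBigO.of_bound A
      apply Eventually.of_forall
      intro ζ
      rw [Real.norm_eq_abs, abs_of_pos (Real.exp_pos _), Real.rpow_one]
      exact hGn ζ
    · refine ⟨A, ?_⟩
      rw [eventually_map]
      filter_upwards [eventually_ge_atTop 0] with x hx
      simp only [hG, norm_mul]
      have h1 := hA (I * x)
      rw [norm_mul, norm_I, one_mul, norm_real, Real.norm_eq_abs, abs_of_nonneg hx] at h1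
      have h2 : ‖cexp (-((σ + ε : ℝ) : ℂ) * x)‖ = Real.exp (-((σ + ε) * x)) := by
        rw [Complex.norm_exp]
        congr 1
        rw [← ofReal_neg, re_ofReal_mul, ofReal_re]
        ring
      rw [h2, Real.exp_neg, ← div_eq_mul_inv, div_le_iff₀ (Real.exp_pos _)]
      exact h1
    · intro x
      simp only [hG, norm_mul]
      have e1 : I * (x * I) = ((-x : ℝ) : ℂ) := by
        rw [mul_comm (x : ℂ) I, ← mul_assoc, I_mul_I]; push_cast; ring
      have h2 : ‖cexp (-((σ + ε : ℝ) : ℂ) * (x * I))‖ = 1 := by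
        rw [Complex.norm_exp, ← ofReal_neg, re_ofReal_mul]
        simp
      rw [e1, h2, mul_one]
      exact hM _
    · simp [hz]
  have hc : Tendsto (fun ε : ℝ => M * Real.exp ((σ + ε) * z.im)) (𝓝[>] 0)
      (𝓝 (M * Real.exp ((σ + 0) * z.im))) := by
    apply Tendsto.mono_left _ nhdsWithin_le_nhds
    apply Continuous.tendsto
    fun_prop
  rw [add_zero] at hc
  refine ge_of_tendsto hc ?_
  filter_upwards [self_mem_nhdsWithin] with ε hε
  exact key ε hε

lemma growth {σ : ℝ} (hσ : 0 ≤ σ) {F : ℂ → ℂ} (hF : ExpType σ F) {M : ℝ} (hM : ∀ x : ℝ, ‖F x‖ ≤ M)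
    (z : ℂ) : ‖F z‖ ≤ M * Real.exp (σ * |z.im|) := by
  rcases le_total 0 z.im with h | h
  · rw [abs_of_nonneg h]; exact growth_half hσ hF hM h
  · rw [abs_of_nonpos h]
    have hF' : ExpType σ (fun w => F (-w)) := by
      refine ⟨hF.1.comp differentiable_neg, fun ε hε => ?_⟩
      obtain ⟨A, hA⟩ := hF.2 ε hε
      exact ⟨A, fun w => by simpa using hA (-w)⟩
    have h2 := growth_half hσ hF' (M := M) (fun x => by
      have := hM (-x)
      simpa using this) (z := -z) (by simpa using h)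
    simpa using h2

end Pool.Agent.H390.BL
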