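import Mathlib
import Pool.Agent.H390.BL.Contour

/-!
The interpolation formula.
-/

set_option autoImplicit false

open Complex Filter Topology Set

namespace Pool.Agent.H390.BL

/-- the half side of the rectangle -/
noncomputable def Rn (n : ℕ) : ℝ := (n + 1 / 2) * Real.pi

lemma sin_Rn (n : ℕ) : Real.sin (Rn n) ^ 2 = 1 := by
  have : Rn n = n * Real.pi + Real.pi / 2 := by unfold Rn; ring
  rw [this, Real.sin_add_pi_div_two]
  have h1 := Real.sin_sq_add_cos_sq (n * Real.pi)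
  rw [Real.sin_nat_mul_pi] at h1
  linarith

lemma sin_neg_Rn (n : ℕ) : Real.sin (-Rn n) ^ 2 = 1 := by
  rw [Real.sin_neg, neg_sq, sin_Rn]

lemma Rn_ge {n : ℕ} (hn : 2 ≤ n) : 5 ≤ Rn n := by
  unfold Rn
  have h1 := Real.pi_gt_three
  have h2 : (2 : ℝ) ≤ n := by exact_mod_cast hn
  nlinarith

/-- the nodes -/
noncomputable def nodes (a : ℝ) (n : ℕ) : Finset ℂ :=
  {(a : ℂ), -(a : ℂ)} ∪ (Finset.Icc (-(n : ℤ)) n).image (fun k : ℤ => (k : ℂ) * Real.pi)

lemma ff_deriv (a : ℝ) (z : ℂ) :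
    deriv (ff a) z = 2 * z * Complex.sin z + (z ^ 2 - a ^ 2) * Complex.cos z := by
  have h1 : HasDerivAt (fun w : ℂ => w ^ 2 - (a : ℂ) ^ 2) (2 * z) z := by
    have := (hasDerivAt_pow 2 z).sub_const ((a : ℂ) ^ 2)
    simpa using this
  have h2 := h1.mul (Complex.hasDerivAt_sin z)
  exact h2.deriv

lemma ff_deriv_k (a : ℝ) (k : ℤ) :
    deriv (ff a) ((k : ℂ) * Real.pi) = (((k : ℂ) * Real.pi) ^ 2 - a ^ 2) * Complex.cos ((k : ℂ) * Real.pi) := by
  rw [ff_deriv]
  have : Complex.sin ((k : ℂ) * Real.pi) = 0 := Complex.sin_int_mul_pi k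
  rw [this, mul_zero, zero_add]

lemma ff_deriv_a (a : ℝ) : deriv (ff a) (a : ℂ) = 2 * a * Complex.sin a := by
  rw [ff_deriv, sub_self, zero_mul, add_zero]

lemma ff_deriv_na (a : ℝ) : deriv (ff a) (-(a : ℂ)) = 2 * a * Complex.sin a := by
  rw [ff_deriv, neg_sq, sub_self, zero_mul, add_zero, Complex.sin_neg]
  ring

lemma sin_a_ne {a : ℝ} (ha : 0 < a) (ha' : a < Real.pi) : Complex.sin (a : ℂ) ≠ 0 := by
  rw [← ofReal_sin]
  exact ofReal_ne_zero.mpr (Real.sin_pos_of_pos_of_lt_pi ha ha').ne'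

lemma sq_ne {a : ℝ} (ha : 0 < a) (ha' : a < Real.pi) (k : ℤ) : ((k : ℂ) * Real.pi) ^ 2 - (a : ℂ) ^ 2 ≠ 0 := by
  intro h
  have h1 : (((k : ℝ) * Real.pi) ^ 2 - a ^ 2 : ℝ) = 0 := by
    have : ((((k : ℝ) * Real.pi) ^ 2 - a ^ 2 : ℝ) : ℂ) = 0 := by push_cast; exact h
    exact_mod_cast this
  rcases eq_or_ne k 0 with h0 | h0
  · rw [h0] at h1
    simp at h1
    exact ha.ne' h1
  · have h2 : (1 : ℝ) ≤ (k : ℝ) ^ 2 := by
      have : (1 : ℤ) ≤ k ^ 2 := by
        have := sq_pos_of_ne_zero h0  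
        omega
      exact_mod_cast this
    have h3 : a ^ 2 < Real.pi ^ 2 := by nlinarith
    nlinarith [Real.pi_pos, mul_le_mul_of_nonneg_right h2 (sq_nonneg Real.pi)]

lemma cos_k_ne (k : ℤ) : Complex.cos ((k : ℂ) * Real.pi) ≠ 0 := by
  intro h
  have h1 := Complex.sin_sq_add_cos_sq ((k : ℂ) * Real.pi)
  rw [h, Complex.sin_int_mul_pi k] at h1
  norm_num at h1

variable {a : ℝ} {h : ℂ → ℂ}

/-- the coefficient of the `k`-th node -/
noncomputable def ck (a : ℝ) (k : ℤ) : ℂ :=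
  ((k : ℂ) * Real.pi) ^ 2 * Complex.cos ((k : ℂ) * Real.pi) / (((k : ℂ) * Real.pi) ^ 2 - a ^ 2) ^ 2

lemma cos_sq_k (k : ℤ) : Complex.cos ((k : ℂ) * Real.pi) ^ 2 = 1 := by
  have h1 := Complex.sin_sq_add_cos_sq ((k : ℂ) * Real.pi)
  rw [Complex.sin_int_mul_pi k] at h1
  linear_combination h1

lemma term_k (ha : 0 < a) (ha' : a < Real.pi) (k : ℤ) :
    HH a h ((k : ℂ) * Real.pi) / deriv (ff a) ((k : ℂ) * Real.pi) =
      ck a k * h (((k : ℂ) * Real.pi) ^ 2 - a ^ 2) := by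
  rw [ff_deriv_k]
  unfold ck
  have h1 := sq_ne ha ha' k
  have h2 := cos_k_ne k
  have h3 := cos_sq_k k
  rcases eq_or_ne k 0 with h0 | h0
  · rw [h0]; simp [HH]
  · have hk : (k : ℂ) * Real.pi ≠ 0 :=
      mul_ne_zero (Int.cast_ne_zero.mpr h0) (ofReal_ne_zero.mpr Real.pi_ne_zero)
    have hE : E (((k : ℂ) * Real.pi) ^ 2) = 0 := by
      rw [E_sq hk, Complex.sin_int_mul_pi k, zero_div]
    unfold HH
    rw [kk_of_ne ha ha' (sub_ne_zero.mp h1)]
    unfold gg
    rw [hE]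
    simp only [mul_zero, zero_div, sub_zero]
    rw [div_mul_eq_mul_div, div_div, div_mul_eq_mul_div, div_eq_div_iff (by
      exact mul_ne_zero h1 (mul_ne_zero h1 h2)) (pow_ne_zero 2 h1)]
    linear_combination (-(h (((k : ℂ) * Real.pi) ^ 2 - a ^ 2) * (((k : ℂ) * Real.pi) ^ 2) *
      (((k : ℂ) * Real.pi) ^ 2 - a ^ 2) ^ 2)) * h3

lemma term_a (ha : 0 < a) (ha' : a < Real.pi) :
    HH a h (a : ℂ) / deriv (ff a) (a : ℂ) = kk a h ((a : ℂ) ^ 2) * a / (2 * Complex.sin a) := by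
  rw [ff_deriv_a]
  unfold HH
  have h1 : (a : ℂ) ≠ 0 := ofReal_ne_zero.mpr ha.ne'
  have h2 := sin_a_ne ha ha'
  field_simp

lemma term_na (ha : 0 < a) (ha' : a < Real.pi) :
    HH a h (-(a : ℂ)) / deriv (ff a) (-(a : ℂ)) = kk a h ((a : ℂ) ^ 2) * a / (2 * Complex.sin a) := by
  rw [ff_deriv_na]
  unfold HH
  rw [neg_sq]
  have h1 : (a : ℂ) ≠ 0 := ofReal_ne_zero.mpr ha.ne'
  have h2 := sin_a_ne ha ha'
  field_simp

lemma mem_nodes_iff (n : ℕ) (s : ℂ) (hs : |s.re| ≤ Rn n) :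
    ff a s = 0 ↔ s ∈ nodes a n := by
  unfold nodes
  rw [Finset.mem_union, Finset.mem_insert, Finset.mem_singleton, Finset.mem_image]
  unfold ff
  rw [mul_eq_zero, sub_eq_zero, sq_eq_sq_iff_eq_or_eq_neg, Complex.sin_eq_zero_iff]
  constructor
  · rintro (h1 | ⟨k, hk⟩)
    · exact Or.inl h1
    · right
      refine ⟨k, ?_, hk.symm⟩
      rw [hk] at hs
      have h2 : ((k : ℂ) * Real.pi).re = (k : ℝ) * Real.pi := by simp
      rw [h2, abs_mul, abs_of_pos Real.pi_pos] at hs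
      unfold Rn at hs
      have h3 := le_of_mul_le_mul_right hs Real.pi_pos
      have h4 : |(k : ℝ)| < (n : ℝ) + 1 := by linarith
      rw [abs_lt] at h4
      obtain ⟨h5, h6⟩ := h4
      have h7 : (-(n : ℤ) - 1 : ℤ) < k := by
        have : ((-(n : ℤ) - 1 : ℤ) : ℝ) < (k : ℝ) := by push_cast; linarith
        exact_mod_cast this
      have h8 : k < (n : ℤ) + 1 := by
        have : (k : ℝ) < (((n : ℤ) + 1 : ℤ) : ℝ) := by push_cast; linarith
        exact_mod_cast this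
      rw [Finset.mem_Icc]
      omega
  · rintro (h1 | ⟨k, _, hk⟩)
    · exact Or.inl h1
    · exact Or.inr ⟨k, hk.symm⟩

lemma residue_sum (ha : 0 < a) (ha' : a < Real.pi) (hh : Differentiable ℂ h) (n : ℕ) (hn : 1 ≤ n) :
    SG.rectI (fun s => HH a h s / ff a s) (-Rn n) (Rn n) (-Rn n) (Rn n) =
      2 * Real.pi * I * (kk a h ((a : ℂ) ^ 2) * a / Complex.sin a +
        ∑ k ∈ Finset.Icc (-(n : ℤ)) n, ck a k * h (((k : ℂ) * Real.pi) ^ 2 - a ^ 2)) := by
  classical
  have hπ := Real.pi_pos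
  have hR : 0 < Rn n := by unfold Rn; positivity
  have hffd : Differentiable ℂ (ff a) := by
    unfold ff
    exact (by fun_prop : Differentiable ℂ fun w : ℂ => w ^ 2 - (a : ℂ) ^ 2).mul Complex.differentiable_sin
  have hHd : Differentiable ℂ (HH a h) := by
    unfold HH
    exact ((kk_diff hh).comp (by fun_prop : Differentiable ℂ fun w : ℂ => w ^ 2)).mul (by fun_prop)
  have haR : a < Rn n := by
    unfold Rn
    have : (1 : ℝ) ≤ n := by exact_mod_cast hn
    nlinarith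
  have := SG.rect_res (ff a) (HH a h) (-Rn n) (Rn n) (-Rn n) (Rn n) (by linarith) (by linarith)
    (nodes a n) ?_ (fun s _ => hffd.analyticAt s) (fun s _ => hHd.analyticAt s) ?_ ?_
  · rw [this]
    congr 1
    unfold nodes
    rw [Finset.sum_union, Finset.sum_pair, term_a ha ha', term_na ha ha', Finset.sum_image]
    · rw [Finset.sum_congr rfl fun k _ => term_k ha ha' k]
      have h2 := sin_a_ne ha ha'
      congr 1
      field_simp
      ring
    · intro k _ l _ hkl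
      simp only at hkl
      have h1 := mul_right_cancel₀ (ofReal_ne_zero.mpr hπ.ne') hkl
      exact_mod_cast h1
    · intro h1
      have : (a : ℂ) = 0 := by linear_combination h1 / 2
      exact (ofReal_ne_zero.mpr ha.ne') this
    · rw [Finset.disjoint_left]
      intro z hz hz'
      rw [Finset.mem_image] at hz'
      obtain ⟨k, _, hk⟩ := hz'
      apply sq_ne ha ha' k
      rw [hk]
      rw [Finset.mem_insert, Finset.mem_singleton] at hz
      rcases hz with h1 | h1 <;> rw [h1] <;> ring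
  · intro z hz
    unfold nodes at hz
    rw [Finset.mem_union, Finset.mem_insert, Finset.mem_singleton, Finset.mem_image] at hz
    rcases hz with (h1 | h1) | ⟨k, hk, h1⟩
    · rw [h1]
      refine ⟨?_, ?_⟩
      · rw [mem_preimage, ofReal_re]; exact ⟨by linarith, haR⟩
      · rw [mem_preimage, ofReal_im]; exact ⟨by linarith, hR⟩
    · rw [h1]
      refine ⟨?_, ?_⟩
      · rw [mem_preimage, neg_re, ofReal_re]; exact ⟨by linarith, by linarith⟩
      · rw [mem_preimage, neg_im, ofReal_im, neg_zero]; exact ⟨by linarith, hR⟩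
    · rw [← h1]
      have h2 : ((k : ℂ) * Real.pi).re = (k : ℝ) * Real.pi := by simp
      have h3 : ((k : ℂ) * Real.pi).im = 0 := by simp
      rw [Finset.mem_Icc] at hk
      have h4 : (k : ℝ) ≤ n := by exact_mod_cast hk.2
      have h5 : -(n : ℝ) ≤ k := by exact_mod_cast hk.1
      refine ⟨?_, ?_⟩
      · rw [mem_preimage, h2]
        unfold Rn
        exact ⟨by nlinarith, by nlinarith⟩
      · rw [mem_preimage, h3]; exact ⟨by linarith, hR⟩
  · intro s hs
    apply mem_nodes_iff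
    have := hs.1
    rw [mem_preimage] at this
    exact abs_le.mpr ⟨this.1, this.2⟩
  · intro z hz
    unfold nodes at hz
    rw [Finset.mem_union, Finset.mem_insert, Finset.mem_singleton, Finset.mem_image] at hz
    have h1 : (a : ℂ) ≠ 0 := ofReal_ne_zero.mpr ha.ne'
    have h2 := sin_a_ne ha ha'
    rcases hz with (h3 | h3) | ⟨k, hk, h3⟩
    · rw [h3, ff_deriv_a]; exact mul_ne_zero (mul_ne_zero two_ne_zero h1) h2
    · rw [h3, ff_deriv_na]; exact mul_ne_zero (mul_ne_zero two_ne_zero h1) h2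
    · rw [← h3, ff_deriv_k]; exact mul_ne_zero (sq_ne ha ha' k) (cos_k_ne k)

end Pool.Agent.H390.BL
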