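import Mathlib
import Pool.Agent.H390.BL.Resid

/-!
The interpolation formula in the limit, and the sharp inequality for real parameters.
-/

set_option autoImplicit false

open Complex Filter Topology Set

namespace Pool.Agent.H390.BL

variable {a : ℝ} {h : ℂ → ℂ}

lemma rectI_bound (F : ℂ → ℂ) (R K : ℝ) (hR : 0 ≤ R)
    (h1 : ∀ w : ℂ, |w.re| ≤ R → |w.im| = R → ‖F w‖ ≤ K)
    (h2 : ∀ w : ℂ, |w.re| = R → |w.im| ≤ R → ‖F w‖ ≤ K) :
    ‖SG.rectI F (-R) R (-R) R‖ ≤ 8 * R * K := by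
  unfold SG.rectI
  have hlen : |R - -R| = 2 * R := by
    rw [sub_neg_eq_add, ← two_mul, abs_of_nonneg (by linarith)]
  have i1 : ∀ c : ℝ, |c| = R → ‖∫ x in (-R)..R, F ⟨x, c⟩‖ ≤ K * (2 * R) := by
    intro c hc
    have := intervalIntegral.norm_integral_le_of_norm_le_const (a := -R) (b := R)
      (f := fun x : ℝ => F ⟨x, c⟩) (C := K) (fun x hx => by
        rw [uIoc_of_le (by linarith)] at hx
        exact h1 _ (abs_le.mpr ⟨hx.1.le, hx.2⟩) hc)
    rwa [hlen] at this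
  have i2 : ∀ c : ℝ, |c| = R → ‖∫ y in (-R)..R, F ⟨c, y⟩‖ ≤ K * (2 * R) := by
    intro c hc
    have := intervalIntegral.norm_integral_le_of_norm_le_const (a := -R) (b := R)
      (f := fun y : ℝ => F ⟨c, y⟩) (C := K) (fun y hy => by
        rw [uIoc_of_le (by linarith)] at hy
        exact h2 _ hc (abs_le.mpr ⟨hy.1.le, hy.2⟩))
    rwa [hlen] at this
  have a1 := i1 (-R) (by rw [abs_neg, abs_of_nonneg hR])
  have a2 := i1 R (abs_of_nonneg hR)
  have a3 := i2 R (abs_of_nonneg hR)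
  have a4 := i2 (-R) (by rw [abs_neg, abs_of_nonneg hR])
  set A := ∫ x in (-R)..R, F ⟨x, -R⟩
  set B := ∫ x in (-R)..R, F ⟨x, R⟩
  set C := ∫ y in (-R)..R, F ⟨R, y⟩
  set D := ∫ y in (-R)..R, F ⟨-R, y⟩
  calc ‖A - B + I * C - I * D‖ ≤ ‖A - B + I * C‖ + ‖I * D‖ := norm_sub_le _ _
    _ ≤ ‖A - B‖ + ‖I * C‖ + ‖I * D‖ := by gcongr; exact norm_add_le _ _
    _ ≤ ‖A‖ + ‖B‖ + ‖I * C‖ + ‖I * D‖ := by gcongr; exact norm_sub_le _ _
    _ = ‖A‖ + ‖B‖ + ‖C‖ + ‖D‖ := by rw [norm_mul, norm_mul, norm_I, one_mul, one_mul]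
    _ ≤ 8 * R * K := by linarith

theorem tendsto_sum (ha : 0 < a) (ha' : a < Real.pi) (hh : Differentiable ℂ h) {M : ℝ} (hM : 0 ≤ M)
    (hgr : ∀ z, ‖h (z ^ 2)‖ ≤ M * Real.exp |z.im|) :
    Tendsto (fun n : ℕ => ∑ k ∈ Finset.Icc (-(n : ℤ)) n,
      ck a k * h (((k : ℂ) * Real.pi) ^ 2 - a ^ 2)) atTop
      (𝓝 (-(kk a h ((a : ℂ) ^ 2) * a / Complex.sin a))) := by
  set K := 4 * (4 * M * Real.exp a + ‖h 0‖ / ‖E (a ^ 2)‖) with hK
  have hK0 : 0 ≤ K := by positivity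
  have hb : ∀ n : ℕ, 2 ≤ n →
      ‖SG.rectI (fun s => HH a h s / ff a s) (-Rn n) (Rn n) (-Rn n) (Rn n)‖ ≤ 8 * K / Rn n := by
    intro n hn
    have hR := Rn_ge hn
    have hR0 : 0 < Rn n := by linarith
    have := rectI_bound (fun s => HH a h s / ff a s) (Rn n) (K / Rn n ^ 2) hR0.le ?_ ?_
    · refine this.trans (le_of_eq ?_)
      field_simp
    · intro w hw1 hw2
      apply bound_bd ha ha' hM hgr hR
      · rw [← hw2]; exact abs_im_le_norm w
      · right; rw [hw2]; linarith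
    · intro w hw1 hw2
      apply bound_bd ha ha' hM hgr hR
      · rw [← hw1]; exact abs_re_le_norm w
      · left
        rcases (abs_eq hR0.le).mp hw1 with h1 | h1
        · rw [h1]; exact sin_Rn n
        · rw [h1]; exact sin_neg_Rn n
  have hRt : Tendsto Rn atTop atTop := by
    unfold Rn
    apply Tendsto.atTop_mul_const Real.pi_pos
    exact tendsto_atTop_add_const_right _ _ tendsto_natCast_atTop_atTop
  have h0 : Tendsto (fun n : ℕ => SG.rectI (fun s => HH a h s / ff a s) (-Rn n) (Rn n) (-Rn n) (Rn n))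
      atTop (𝓝 0) := by
    rw [tendsto_zero_iff_norm_tendsto_zero]
    refine squeeze_zero' (Eventually.of_forall fun n => norm_nonneg _) ?_
      (hRt.const_div_atTop (8 * K))
    filter_upwards [eventually_ge_atTop 2] with n hn
    exact hb n hn
  have h1 := (h0.div_const (2 * Real.pi * I)).sub_const (kk a h ((a : ℂ) ^ 2) * a / Complex.sin a)
  rw [zero_div, zero_sub] at h1
  refine h1.congr' ?_
  filter_upwards [eventually_ge_atTop 1] with n hn
  rw [residue_sum ha ha' hh n hn]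
  have h2 : (2 * Real.pi * I : ℂ) ≠ 0 :=
    mul_ne_zero (mul_ne_zero two_ne_zero (ofReal_ne_zero.mpr Real.pi_ne_zero)) I_ne_zero
  field_simp
  ring

end Pool.Agent.H390.BL
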