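import Mathlib
import Pool.Agent.H390.BL.Limit

/-!
The sharp inequality for the real parameters `P a`.
-/

set_option autoImplicit false

open Complex Filter Topology Set

namespace Pool.Agent.H390.BL

/-- `cos √t` -/
noncomputable def Cc : ℂ → ℂ := hs Complex.cos

lemma cos_even (z : ℂ) : Complex.cos (-z) = Complex.cos z := Complex.cos_neg z

lemma Cc_diff : Differentiable ℂ Cc := hs_differentiable Complex.differentiable_cos cos_even

lemma Cc_sq (w : ℂ) : Cc (w ^ 2) = Complex.cos w := hs_sq cos_even w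

lemma norm_cos_sq (w : ℂ) : ‖Complex.cos w‖ ^ 2 = Real.cos w.re ^ 2 + Real.sinh w.im ^ 2 := by
  have h1 : Complex.cos w = ((Real.cos w.re * Real.cosh w.im : ℝ) : ℂ) +
      ((-(Real.sin w.re * Real.sinh w.im) : ℝ) : ℂ) * I := by
    rw [Complex.cos_eq w]
    push_cast
    ring
  rw [h1, ← Complex.normSq_eq_norm_sq, Complex.normSq_add_mul_I]
  have h2 := Real.sin_sq_add_cos_sq w.re
  have h3 := Real.cosh_sq w.im
  have h4 : Real.sin w.re ^ 2 = 1 - Real.cos w.re ^ 2 := by linarith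
  rw [mul_pow, neg_sq, mul_pow, h3, h4]
  ring

lemma norm_cos_le (w : ℂ) : ‖Complex.cos w‖ ≤ Real.exp |w.im| := by
  have h1 := norm_cos_sq w
  have h2 : ‖Complex.cos w‖ ^ 2 ≤ Real.cosh w.im ^ 2 := by
    rw [h1, Real.cosh_sq]
    nlinarith [Real.sin_sq_add_cos_sq w.re, sq_nonneg (Real.sin w.re)]
  have h3 := (pow_le_pow_iff_left₀ (norm_nonneg _) (Real.cosh_pos _).le two_ne_zero).mp h2
  refine h3.trans ?_
  rw [← Real.cosh_abs, Real.cosh_eq]
  have h4 : Real.exp (-|w.im|) ≤ Real.exp |w.im| := Real.exp_le_exp.mpr (by linarith [abs_nonneg w.im])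
  linarith

lemma abs_im_le {z w : ℂ} {s : ℝ} (hs : 0 ≤ s) (h : z ^ 2 = w ^ 2 - s) : |w.im| ≤ |z.im| := by
  have := (im_le_of_sq hs h).2
  exact sq_le_sq.mp this

lemma Cc_growth (a : ℝ) (z : ℂ) : ‖Cc (z ^ 2 + a ^ 2)‖ ≤ Real.exp |z.im| := by
  set w : ℂ := (z ^ 2 + a ^ 2) ^ (((2 : ℕ) : ℂ)⁻¹) with hw
  have hw2 : w ^ 2 = z ^ 2 + a ^ 2 := sqrt_sq _
  rw [← hw2, Cc_sq]
  refine (norm_cos_le w).trans (Real.exp_le_exp.mpr ?_)
  exact abs_im_le (sq_nonneg a) (by rw [hw2]; push_cast; ring)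

/-- the parameter -/
noncomputable def P (a : ℝ) : ℝ := if a = 0 then -1 / 3 else (a * Real.cos a - Real.sin a) / (a ^ 2 * Real.sin a)

/-- the norm at `P a` -/
noncomputable def N0 (a : ℝ) : ℝ := if a = 0 then 2 / 3 else (a - Real.sin a * Real.cos a) / (a ^ 2 * Real.sin a)

variable {a : ℝ} {h : ℂ → ℂ}

lemma E_deriv (ha : 0 < a) : deriv E ((a : ℂ) ^ 2) = (a * Complex.cos a - Complex.sin a) / (2 * a ^ 3) := by
  have h1 : (a : ℂ) ≠ 0 := ofReal_ne_zero.mpr ha.ne'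
  have h2 : HasDerivAt (fun w : ℂ => E (w ^ 2)) (deriv E ((a : ℂ) ^ 2) * (2 * a)) (a : ℂ) := by
    have h3 := (E_diff ((a : ℂ) ^ 2)).hasDerivAt
    have h4 := hasDerivAt_pow 2 (a : ℂ)
    have h5 : HasDerivAt (fun w : ℂ => E (w ^ 2)) _ (a : ℂ) := h3.comp (a : ℂ) h4
    refine h5.congr_deriv ?_
    norm_num
  have h3 : HasDerivAt (fun w : ℂ => Complex.sin w / w)
      ((Complex.cos a * a - Complex.sin a * 1) / (a : ℂ) ^ 2) (a : ℂ) :=
    (Complex.hasDerivAt_sin (a : ℂ)).div (hasDerivAt_id (a : ℂ)) h1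
  have h4 : (fun w : ℂ => E (w ^ 2)) =ᶠ[𝓝 (a : ℂ)] fun w : ℂ => Complex.sin w / w := by
    filter_upwards [isOpen_ne.mem_nhds h1] with w hw
    exact E_sq hw
  have h5 := (h3.congr_of_eventuallyEq h4).unique h2
  rw [mul_one] at h5
  rw [eq_div_iff (by exact mul_ne_zero two_ne_zero (pow_ne_zero 3 h1))]
  rw [div_eq_iff (pow_ne_zero 2 h1)] at h5
  linear_combination -h5

lemma Cc_deriv (ha : 0 < a) : deriv Cc ((a : ℂ) ^ 2) = -Complex.sin a / (2 * a) := by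
  have h1 : (a : ℂ) ≠ 0 := ofReal_ne_zero.mpr ha.ne'
  have h2 : HasDerivAt (fun w : ℂ => Cc (w ^ 2)) (deriv Cc ((a : ℂ) ^ 2) * (2 * a)) (a : ℂ) := by
    have h3 := (Cc_diff ((a : ℂ) ^ 2)).hasDerivAt
    have h4 := hasDerivAt_pow 2 (a : ℂ)
    have h5 : HasDerivAt (fun w : ℂ => Cc (w ^ 2)) _ (a : ℂ) := h3.comp (a : ℂ) h4
    refine h5.congr_deriv ?_
    norm_num
  have h3 : HasDerivAt (fun w : ℂ => Cc (w ^ 2)) (-Complex.sin a) (a : ℂ) := by
    have : (fun w : ℂ => Cc (w ^ 2)) = Complex.cos := by funext w; exact Cc_sq w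
    rw [this]; exact Complex.hasDerivAt_cos _
  have h4 := h3.unique h2
  rw [eq_div_iff (mul_ne_zero two_ne_zero h1)]
  exact h4.symm

lemma P_eq (ha : 0 < a) : P a = (a * Real.cos a - Real.sin a) / (a ^ 2 * Real.sin a) := by
  unfold P; rw [if_neg ha.ne']

lemma N0_eq (ha : 0 < a) : N0 a = (a - Real.sin a * Real.cos a) / (a ^ 2 * Real.sin a) := by
  unfold N0; rw [if_neg ha.ne']

lemma kk_a (ha : 0 < a) (ha' : a < Real.pi) (hh : Differentiable ℂ h) :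
    kk a h ((a : ℂ) ^ 2) = deriv h 0 - (P a : ℂ) / 2 * h 0 := by
  unfold kk
  rw [dslope_same]
  have h1 : (a : ℂ) ≠ 0 := ofReal_ne_zero.mpr ha.ne'
  have h2 := sin_a_ne ha ha'
  have h3 : HasDerivAt (fun t : ℂ => h (t - a ^ 2)) (deriv h 0) ((a : ℂ) ^ 2) := by
    have h4 : HasDerivAt h (deriv h 0) ((a : ℂ) ^ 2 - a ^ 2) := by
      rw [sub_self]; exact (hh 0).hasDerivAt
    have h8 : HasDerivAt (fun t : ℂ => t - (a : ℂ) ^ 2) 1 ((a : ℂ) ^ 2) :=
      (hasDerivAt_id ((a : ℂ) ^ 2)).sub_const ((a : ℂ) ^ 2)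
    have h9 : HasDerivAt (fun t : ℂ => h (t - a ^ 2)) (deriv h 0 * 1) ((a : ℂ) ^ 2) :=
      HasDerivAt.comp (h := fun t : ℂ => t - (a : ℂ) ^ 2) ((a : ℂ) ^ 2) h4 h8
    rwa [mul_one] at h9
  have h5 : HasDerivAt (fun t : ℂ => h 0 * E t / E (a ^ 2)) (h 0 * deriv E ((a : ℂ) ^ 2) / E (a ^ 2))
      ((a : ℂ) ^ 2) :=
    (((E_diff ((a : ℂ) ^ 2)).hasDerivAt).const_mul (h 0)).div_const _
  have h6 := (h3.sub h5).deriv
  have h7 : gg a h = (fun t : ℂ => h (t - a ^ 2)) - fun t : ℂ => h 0 * E t / E (a ^ 2) := by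
    funext t; rfl
  rw [h7, h6, E_deriv ha, E_sq h1, P_eq ha]
  push_cast
  field_simp

/-- the comparison function -/
noncomputable def uu (a : ℝ) (t : ℂ) : ℂ := Cc (t + a ^ 2)

lemma uu_diff : Differentiable ℂ (uu a) := Cc_diff.comp (by fun_prop)

lemma uu_node (k : ℤ) : uu a (((k : ℂ) * Real.pi) ^ 2 - a ^ 2) = Complex.cos ((k : ℂ) * Real.pi) := by
  unfold uu
  rw [sub_add_cancel, Cc_sq]

lemma kk_uu (ha : 0 < a) (ha' : a < Real.pi) :
    -(kk a (uu a) ((a : ℂ) ^ 2) * a / Complex.sin a) = ((N0 a / 2 * (a / Real.sin a) : ℝ) : ℂ) := by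
  rw [kk_a ha ha' uu_diff]
  have h1 : (a : ℂ) ≠ 0 := ofReal_ne_zero.mpr ha.ne'
  have h2 := sin_a_ne ha ha'
  have h3 : uu a 0 = Complex.cos a := by unfold uu; rw [zero_add, Cc_sq]
  have h4 : deriv (uu a) 0 = -Complex.sin a / (2 * a) := by
    rw [← Cc_deriv ha]
    have h5 : HasDerivAt Cc (deriv Cc ((a : ℂ) ^ 2)) (0 + (a : ℂ) ^ 2) := by
      rw [zero_add]; exact (Cc_diff _).hasDerivAt
    have h6 := h5.comp (0 : ℂ) ((hasDerivAt_id (0 : ℂ)).add_const ((a : ℂ) ^ 2))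
    have h7 := h6.deriv
    rw [mul_one] at h7
    exact h7
  rw [h3, h4, P_eq ha, N0_eq ha]
  push_cast
  have h5 := Complex.sin_sq_add_cos_sq (a : ℂ)
  field_simp
  linear_combination (a : ℂ) * h5

lemma norm_ck (k : ℤ) : ‖ck a k‖ = (ck a k * Complex.cos ((k : ℂ) * Real.pi)).re := by
  have h1 : ck a k * Complex.cos ((k : ℂ) * Real.pi) =
      (((k * Real.pi) ^ 2 / ((k * Real.pi) ^ 2 - a ^ 2) ^ 2 : ℝ) : ℂ) := by
    unfold ck
    push_cast
    have := cos_sq_k k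
    rw [div_mul_eq_mul_div, mul_assoc, ← pow_two, this, mul_one]
  have h2 : ‖Complex.cos ((k : ℂ) * Real.pi)‖ = 1 := by
    have := congrArg norm (cos_sq_k k)
    rw [norm_pow, norm_one] at this
    rwa [pow_eq_one_iff_of_nonneg (norm_nonneg _) two_ne_zero] at this
  have h3 : ‖ck a k‖ = ‖ck a k * Complex.cos ((k : ℂ) * Real.pi)‖ := by rw [norm_mul, h2, mul_one]
  rw [h3, h1, ofReal_re, norm_real, Real.norm_eq_abs, abs_of_nonneg (by positivity)]

/-- The sharp inequality for the parameter `P a`. -/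
theorem real_ineq (ha : 0 < a) (ha' : a < Real.pi) (hh : Differentiable ℂ h) {M : ℝ}
    (hgr : ∀ z, ‖h (z ^ 2)‖ ≤ M * Real.exp |z.im|) :
    ‖-(2 * deriv h 0) + (P a : ℂ) * h 0‖ ≤ N0 a * M := by
  have hM : 0 ≤ M := by
    have := hgr 0
    simp only [zero_im, abs_zero, Real.exp_zero, mul_one] at this
    exact (norm_nonneg _).trans this
  have t1 := tendsto_sum ha ha' hh hM hgr
  have t2 := tendsto_sum ha ha' (uu_diff (a := a)) (M := 1) zero_le_one (fun z => by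
    rw [one_mul]; exact Cc_growth a z)
  rw [kk_uu ha ha'] at t2
  have t3 := (Complex.continuous_re.tendsto _).comp t2
  rw [ofReal_re] at t3
  have hle : ∀ n : ℕ, ‖∑ k ∈ Finset.Icc (-(n : ℤ)) n, ck a k * h (((k : ℂ) * Real.pi) ^ 2 - a ^ 2)‖ ≤
      M * (∑ k ∈ Finset.Icc (-(n : ℤ)) n, ck a k * uu a (((k : ℂ) * Real.pi) ^ 2 - a ^ 2)).re := by
    intro n
    refine (norm_sum_le _ _).trans ?_
    rw [Complex.re_sum, Finset.mul_sum]
    refine Finset.sum_le_sum fun k _ => ?_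
    rw [uu_node, ← norm_ck, norm_mul, mul_comm M]
    rcases eq_or_ne k 0 with h0 | h0
    · rw [h0]; simp [ck]
    · apply mul_le_mul_of_nonneg_left _ (norm_nonneg _)
      -- the node is the square of a real number
      have hpos : 0 ≤ (k * Real.pi) ^ 2 - a ^ 2 := by
        have h2 : (1 : ℝ) ≤ (k : ℝ) ^ 2 := by
          have : (1 : ℤ) ≤ k ^ 2 := by
            have := sq_pos_of_ne_zero h0
            omega
          exact_mod_cast this
        have h3 : a ^ 2 < Real.pi ^ 2 := by nlinarith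
        nlinarith [mul_le_mul_of_nonneg_right h2 (sq_nonneg Real.pi)]
      have h4 := hgr ((Real.sqrt ((k * Real.pi) ^ 2 - a ^ 2) : ℝ) : ℂ)
      rw [ofReal_im, abs_zero, Real.exp_zero, mul_one, ← ofReal_pow, Real.sq_sqrt hpos] at h4
      push_cast at h4
      exact h4
  have h5 := le_of_tendsto_of_tendsto' t1.norm (t3.const_mul M) hle
  rw [kk_a ha ha' hh] at h5
  have hs : 0 < Real.sin a := Real.sin_pos_of_pos_of_lt_pi ha ha'
  have h6 : -((deriv h 0 - (P a : ℂ) / 2 * h 0) * a / Complex.sin a) =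
      (-(2 * deriv h 0) + (P a : ℂ) * h 0) * ((a / Real.sin a / 2 : ℝ) : ℂ) := by
    push_cast
    ring
  rw [h6, norm_mul, norm_real, Real.norm_eq_abs, abs_of_pos (by positivity)] at h5
  have h7 : 0 < a / Real.sin a / 2 := by positivity
  have h8 : M * (N0 a / 2 * (a / Real.sin a)) = (N0 a * M) * (a / Real.sin a / 2) := by ring
  rw [h8] at h5
  exact le_of_mul_le_mul_right h5 h7

end Pool.Agent.H390.BL
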