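import Mathlib
import Pool.Agent.H390.BL.Real
import Pool.Agent.H390.BL.Growth

/-!
The upper bound for functions of exponential type.
-/

set_option autoImplicit false

open Complex Filter Topology Set

namespace Pool.Agent.H390.BL

lemma deriv_diff {F : ℂ → ℂ} (hF : Differentiable ℂ F) : Differentiable ℂ (deriv F) := by
  have := (hF.differentiableOn (s := univ)).deriv isOpen_univ
  exact differentiableOn_univ.mp this

/-- even part of a translate -/
noncomputable def ev (F : ℂ → ℂ) (x : ℂ) (z : ℂ) : ℂ := (F (x + z) + F (x - z)) / 2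

lemma ev_even (F : ℂ → ℂ) (x z : ℂ) : ev F x (-z) = ev F x z := by
  unfold ev
  rw [sub_neg_eq_add, ← sub_eq_add_neg, add_comm]

lemma ev_diff {F : ℂ → ℂ} (hF : Differentiable ℂ F) (x : ℂ) : Differentiable ℂ (ev F x) := by
  unfold ev
  exact ((hF.comp (by fun_prop : Differentiable ℂ fun z : ℂ => x + z)).add
    (hF.comp (by fun_prop : Differentiable ℂ fun z : ℂ => x - z))).div_const 2

lemma ev_deriv {F : ℂ → ℂ} (hF : Differentiable ℂ F) (x z : ℂ) :
    HasDerivAt (ev F x) ((deriv F (x + z) - deriv F (x - z)) / 2) z := by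
  have h1 : HasDerivAt (fun z : ℂ => F (x + z)) (deriv F (x + z) * 1) z :=
    HasDerivAt.comp (h := fun z : ℂ => x + z) z (hF (x + z)).hasDerivAt
      ((hasDerivAt_id z).const_add x)
  have h2 : HasDerivAt (fun z : ℂ => F (x - z)) (deriv F (x - z) * (-1)) z :=
    HasDerivAt.comp (h := fun z : ℂ => x - z) z (hF (x - z)).hasDerivAt
      ((hasDerivAt_id z).const_sub x)
  refine ((h1.add h2).div_const 2).congr_deriv ?_
  ring

lemma two_deriv_hs {F : ℂ → ℂ} (hF : Differentiable ℂ F) (x : ℂ) :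
    2 * deriv (hs (ev F x)) 0 = deriv (deriv F) x := by
  set h := hs (ev F x) with hh
  have hd : Differentiable ℂ h := hs_differentiable (ev_diff hF x) (ev_even F x)
  have e1 : ev F x = fun z => h (z ^ 2) := by
    funext z; exact (hs_sq (ev_even F x) z).symm
  have d1 : deriv (ev F x) = fun z => deriv h (z ^ 2) * (2 * z) := by
    funext z
    have h1 : HasDerivAt (fun z : ℂ => h (z ^ 2)) (deriv h (z ^ 2) * (((2 : ℕ) : ℂ) * z ^ (2 - 1))) z :=
      HasDerivAt.comp (h := fun z : ℂ => z ^ 2) z (hd (z ^ 2)).hasDerivAt (hasDerivAt_pow 2 z)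
    rw [e1, h1.deriv]
    norm_num
  have d2 : deriv (ev F x) = fun z => (deriv F (x + z) - deriv F (x - z)) / 2 := by
    funext z; exact (ev_deriv hF x z).deriv
  have hdd := deriv_diff hd
  have hdF := deriv_diff hF
  have h1 : HasDerivAt (fun z : ℂ => deriv h (z ^ 2) * (2 * z)) (2 * deriv h 0) 0 := by
    have h2 : HasDerivAt (fun z : ℂ => deriv h (z ^ 2))
        (deriv (deriv h) ((0 : ℂ) ^ 2) * (((2 : ℕ) : ℂ) * 0 ^ (2 - 1))) 0 :=
      HasDerivAt.comp (h := fun z : ℂ => z ^ 2) 0 (hdd ((0 : ℂ) ^ 2)).hasDerivAt (hasDerivAt_pow 2 0)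
    have h3 : HasDerivAt (fun z : ℂ => 2 * z) (2 * 1) (0 : ℂ) := (hasDerivAt_id (0 : ℂ)).const_mul 2
    refine (h2.mul h3).congr_deriv ?_
    norm_num
    ring
  have h2 : HasDerivAt (fun z : ℂ => (deriv F (x + z) - deriv F (x - z)) / 2) (deriv (deriv F) x) 0 := by
    have h3 : HasDerivAt (fun z : ℂ => deriv F (x + z)) (deriv (deriv F) (x + 0) * 1) 0 :=
      HasDerivAt.comp (h := fun z : ℂ => x + z) 0 (hdF (x + 0)).hasDerivAt
        ((hasDerivAt_id (0 : ℂ)).const_add x)
    have h4 : HasDerivAt (fun z : ℂ => deriv F (x - z)) (deriv (deriv F) (x - 0) * (-1)) 0 :=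
      HasDerivAt.comp (h := fun z : ℂ => x - z) 0 (hdF (x - 0)).hasDerivAt
        ((hasDerivAt_id (0 : ℂ)).const_sub x)
    refine ((h3.sub h4).div_const 2).congr_deriv ?_
    simp
  have h3 := h1.deriv
  have h4 := h2.deriv
  rw [← h3, ← h4, ← d1, d2]

/-- The inequality at an arbitrary real point, type `1`. -/
theorem upper_one {a : ℝ} (ha : 0 < a) (ha' : a < Real.pi) {F : ℂ → ℂ} (hF : ExpType 1 F) {M : ℝ}
    (hM : ∀ x : ℝ, ‖F x‖ ≤ M) (x : ℝ) :
    ‖-(deriv (deriv F) x) + (P a : ℂ) * F x‖ ≤ N0 a * M := by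
  have hgr := growth zero_le_one hF hM
  have hM0 : 0 ≤ M := (norm_nonneg _).trans (hM 0)
  have h0 : hs (ev F x) 0 = F x := by
    have := hs_sq (ev_even F x) 0
    rw [zero_pow two_ne_zero] at this
    rw [this]
    unfold ev
    simp
  have := real_ineq ha ha' (h := hs (ev F x)) (hs_differentiable (ev_diff hF.1 x) (ev_even F x))
    (M := M) (fun z => by
      rw [hs_sq (ev_even F x)]
      unfold ev
      have h1 := hgr (x + z)
      have h2 := hgr (x - z)
      have e1 : ((x : ℂ) + z).im = z.im := by simp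
      have e2 : ((x : ℂ) - z).im = -z.im := by simp
      rw [e1, one_mul] at h1
      rw [e2, abs_neg, one_mul] at h2
      rw [norm_div, Complex.norm_ofNat]
      have h3 := norm_add_le (F (x + z)) (F (x - z))
      rw [div_le_iff₀ (by norm_num)]
      linarith)
  rwa [two_deriv_hs hF.1, h0] at this

/-- limits at `0` -/
lemma tendsto_P : Tendsto P (𝓝[>] 0) (𝓝 (-1 / 3)) := by
  have h1 : Tendsto (fun a : ℝ => (a * Real.cos a - Real.sin a) / a ^ 3) (𝓝[>] 0) (𝓝 (-1 / 3)) := by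
    have hb : ∀ᶠ a : ℝ in 𝓝[>] 0, |(a * Real.cos a - Real.sin a) / a ^ 3 - (-1 / 3)| ≤ a := by
      filter_upwards [Ioo_mem_nhdsGT (show (0 : ℝ) < 1 by norm_num)] with a ha
      have ha0 : 0 < a := ha.1
      have hs := Real.sin_bound (x := a) (by rw [abs_of_pos ha0]; exact ha.2.le)
      have hc := Real.cos_bound (x := a) (by rw [abs_of_pos ha0]; exact ha.2.le)
      rw [abs_of_pos ha0] at hs hc
      have e : (a * Real.cos a - Real.sin a) / a ^ 3 - (-1 / 3) =
          (a * (Real.cos a - (1 - a ^ 2 / 2)) - (Real.sin a - (a - a ^ 3 / 6))) / a ^ 3 := by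
        field_simp
        ring
      rw [e, abs_div, abs_of_pos (by positivity : (0 : ℝ) < a ^ 3), div_le_iff₀ (by positivity)]
      refine (abs_sub _ _).trans ?_
      rw [abs_mul, abs_of_pos ha0]
      have h4 : a * |Real.cos a - (1 - a ^ 2 / 2)| ≤ a * (a ^ 4 * (5 / 96)) := by gcongr
      have h5 : a * (a ^ 4 * (5 / 96)) ≤ a ^ 4 * (5 / 96) := by
        have := ha.2.le
        nlinarith [pow_pos ha0 4]
      have h6 : a * a ^ 3 = a ^ 4 := by ring
      rw [h6]
      nlinarith [pow_pos ha0 4]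
    rw [tendsto_iff_dist_tendsto_zero]
    refine squeeze_zero' (Eventually.of_forall fun a => dist_nonneg) ?_
      (show Tendsto (fun a : ℝ => a) (𝓝[>] 0) (𝓝 0) from tendsto_nhdsWithin_of_tendsto_nhds tendsto_id)
    filter_upwards [hb] with a ha
    rw [Real.dist_eq]
    exact ha
  have h2 : Tendsto (fun a : ℝ => Real.sin a / a) (𝓝[>] 0) (𝓝 1) := by
    have := Real.hasDerivAt_sin 0
    rw [hasDerivAt_iff_tendsto_slope] at this
    have h3 := this.mono_left (nhdsWithin_mono 0 (show Ioi (0 : ℝ) ⊆ {0}ᶜ from fun x hx => ne_of_gt hx))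
    rw [Real.cos_zero] at h3
    refine h3.congr' ?_
    filter_upwards [self_mem_nhdsWithin] with a ha
    rw [slope_def_field, Real.sin_zero, sub_zero, sub_zero]
  have h3 := h1.div h2 one_ne_zero
  rw [div_one] at h3
  refine h3.congr' ?_
  filter_upwards [Ioo_mem_nhdsGT Real.pi_pos] with a ha
  rw [P_eq ha.1]
  have h4 := (Real.sin_pos_of_pos_of_lt_pi ha.1 ha.2).ne'
  have h5 := ha.1.ne'
  simp only [Pi.div_apply]
  field_simp

lemma N0_eq' {a : ℝ} (ha : 0 < a) (ha' : a < Real.pi) : N0 a = Real.sin a / a + P a * Real.cos a := by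
  rw [N0_eq ha, P_eq ha]
  have h4 := (Real.sin_pos_of_pos_of_lt_pi ha ha').ne'
  have h5 := ha.ne'
  have h6 := Real.sin_sq_add_cos_sq a
  field_simp
  linear_combination (-a) * h6

lemma tendsto_N0 : Tendsto N0 (𝓝[>] 0) (𝓝 (2 / 3)) := by
  have h2 : Tendsto (fun a : ℝ => Real.sin a / a) (𝓝[>] 0) (𝓝 1) := by
    have := Real.hasDerivAt_sin 0
    rw [hasDerivAt_iff_tendsto_slope] at this
    have h3 := this.mono_left (nhdsWithin_mono 0 (show Ioi (0 : ℝ) ⊆ {0}ᶜ from fun x hx => ne_of_gt hx))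
    rw [Real.cos_zero] at h3
    refine h3.congr' ?_
    filter_upwards [self_mem_nhdsWithin] with a ha
    rw [slope_def_field, Real.sin_zero, sub_zero, sub_zero]
  have h3 : Tendsto Real.cos (𝓝[>] 0) (𝓝 1) := by
    have := (Real.continuous_cos.tendsto 0).mono_left (nhdsWithin_le_nhds (s := Ioi (0 : ℝ)))
    rwa [Real.cos_zero] at this
  have h4 := h2.add (tendsto_P.mul h3)
  have e : (1 : ℝ) + -1 / 3 * 1 = 2 / 3 := by norm_num
  rw [e] at h4
  refine h4.congr' ?_
  filter_upwards [Ioo_mem_nhdsGT Real.pi_pos] with a ha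
  exact (N0_eq' ha.1 ha.2).symm

/-- The inequality including `a = 0`. -/
theorem upper_one' {a : ℝ} (ha : 0 ≤ a) (ha' : a < Real.pi) {F : ℂ → ℂ} (hF : ExpType 1 F) {M : ℝ}
    (hM : ∀ x : ℝ, ‖F x‖ ≤ M) (x : ℝ) :
    ‖-(deriv (deriv F) x) + (P a : ℂ) * F x‖ ≤ N0 a * M := by
  rcases ha.lt_or_eq with h | h
  · exact upper_one h ha' hF hM x
  · rw [← h]
    have e1 : P 0 = -1 / 3 := by unfold P; rw [if_pos rfl]
    have e2 : N0 0 = 2 / 3 := by unfold N0; rw [if_pos rfl]
    rw [e1, e2]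
    have t1 : Tendsto (fun b : ℝ => ‖-(deriv (deriv F) x) + (P b : ℂ) * F x‖) (𝓝[>] 0)
        (𝓝 ‖-(deriv (deriv F) x) + (((-1 / 3 : ℝ)) : ℂ) * F x‖) := by
      apply Tendsto.norm
      apply Tendsto.const_add
      apply Tendsto.mul_const
      exact (Complex.continuous_ofReal.tendsto _).comp tendsto_P
    have t2 := tendsto_N0.mul_const M
    refine le_of_tendsto_of_tendsto t1 t2 ?_
    filter_upwards [Ioo_mem_nhdsGT Real.pi_pos] with b hb
    exact upper_one hb.1 hb.2 hF hM x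

end Pool.Agent.H390.BL
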