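import Mathlib
import Pool.Agent.H390.BL.Upper

/-!
Existence and uniqueness of the parameters.
-/

set_option autoImplicit false

open Filter Topology Set

namespace Pool.Agent.H390.BL

lemma aux1 {a : ℝ} (ha : 0 < a) (ha' : a < Real.pi) : 0 < Real.sin a - a * Real.cos a := by
  have hm : StrictMonoOn (fun x : ℝ => Real.sin x - x * Real.cos x) (Icc 0 Real.pi) := by
    apply strictMonoOn_of_deriv_pos (convex_Icc _ _)
    · fun_prop
    · intro x hx
      rw [interior_Icc] at hx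
      have h1 : HasDerivAt (fun x : ℝ => Real.sin x - x * Real.cos x)
          (Real.cos x - (1 * Real.cos x + x * (-Real.sin x))) x :=
        (Real.hasDerivAt_sin x).sub ((hasDerivAt_id x).mul (Real.hasDerivAt_cos x))
      rw [h1.deriv]
      have := mul_pos hx.1 (Real.sin_pos_of_pos_of_lt_pi hx.1 hx.2)
      linarith
  have := hm ⟨le_rfl, Real.pi_pos.le⟩ ⟨ha.le, ha'.le⟩ ha
  simpa using this

lemma aux2 {a : ℝ} (ha : 0 < a) (ha' : a < Real.pi) :
    0 < 2 * a - 3 * (Real.sin a * Real.cos a) + a * (Real.cos a ^ 2 - Real.sin a ^ 2) -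
      (Real.sin a * Real.cos a) * 0 := by
  have hm : StrictMonoOn (fun x : ℝ => 2 * x - 3 * (Real.sin x * Real.cos x) +
      x * (Real.cos x ^ 2 - Real.sin x ^ 2)) (Icc 0 Real.pi) := by
    apply strictMonoOn_of_deriv_pos (convex_Icc _ _)
    · fun_prop
    · intro x hx
      rw [interior_Icc] at hx
      have hs := Real.hasDerivAt_sin x
      have hc := Real.hasDerivAt_cos x
      have h1 : HasDerivAt (fun x : ℝ => 2 * x - 3 * (Real.sin x * Real.cos x) +
          x * (Real.cos x ^ 2 - Real.sin x ^ 2))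
          (2 * 1 - 3 * (Real.cos x * Real.cos x + Real.sin x * (-Real.sin x)) +
          (1 * (Real.cos x ^ 2 - Real.sin x ^ 2) + x * ((2 : ℕ) * Real.cos x ^ (2 - 1) * (-Real.sin x) -
            (2 : ℕ) * Real.sin x ^ (2 - 1) * Real.cos x))) x :=
        (((hasDerivAt_id x).const_mul 2).sub ((hs.mul hc).const_mul 3)).add
          ((hasDerivAt_id x).mul ((hc.pow 2).sub (hs.pow 2)))
      rw [h1.deriv]
      have h2 := mul_pos (Real.sin_pos_of_pos_of_lt_pi hx.1 hx.2) (aux1 hx.1 hx.2)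
      have h3 := Real.sin_sq_add_cos_sq x
      norm_num
      nlinarith
  have := hm ⟨le_rfl, Real.pi_pos.le⟩ ⟨ha.le, ha'.le⟩ ha
  simp only [mul_zero, Real.sin_zero, zero_mul, sub_zero, zero_add, add_zero] at this
  linarith

lemma aux3 {a : ℝ} (ha : 0 < a) (ha' : a < Real.pi) :
    0 < a ^ 2 + a * (Real.sin a * Real.cos a) - 2 * Real.sin a ^ 2 := by
  have hm : StrictMonoOn (fun x : ℝ => x ^ 2 + x * (Real.sin x * Real.cos x) - 2 * Real.sin x ^ 2)
      (Icc 0 Real.pi) := by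
    apply strictMonoOn_of_deriv_pos (convex_Icc _ _)
    · fun_prop
    · intro x hx
      rw [interior_Icc] at hx
      have hs := Real.hasDerivAt_sin x
      have hc := Real.hasDerivAt_cos x
      have h1 : HasDerivAt (fun x : ℝ => x ^ 2 + x * (Real.sin x * Real.cos x) - 2 * Real.sin x ^ 2)
          ((2 : ℕ) * x ^ (2 - 1) * 1 + (1 * (Real.sin x * Real.cos x) +
            x * (Real.cos x * Real.cos x + Real.sin x * (-Real.sin x))) -
            2 * ((2 : ℕ) * Real.sin x ^ (2 - 1) * Real.cos x)) x :=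
        (((hasDerivAt_id x).pow 2).add ((hasDerivAt_id x).mul (hs.mul hc))).sub
          ((hs.pow 2).const_mul 2)
      rw [h1.deriv]
      have h2 := aux2 hx.1 hx.2
      norm_num
      nlinarith
  have := hm ⟨le_rfl, Real.pi_pos.le⟩ ⟨ha.le, ha'.le⟩ ha
  simp only [ne_eq, OfNat.ofNat_ne_zero, not_false_eq_true, zero_pow, Real.sin_zero, zero_mul,
    mul_zero, sub_zero, add_zero] at this
  exact this

/-- `P a + y cot a` -/
noncomputable def phi (y a : ℝ) : ℝ := P a + y * (Real.cos a / Real.sin a)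

lemma phi_deriv (y : ℝ) {a : ℝ} (ha : 0 < a) (ha' : a < Real.pi) :
    HasDerivAt (phi y) (-(a ^ 2 + a * (Real.sin a * Real.cos a) - 2 * Real.sin a ^ 2) /
      (a ^ 3 * Real.sin a ^ 2) - y / Real.sin a ^ 2) a := by
  have hs := Real.hasDerivAt_sin a
  have hc := Real.hasDerivAt_cos a
  have hsp := Real.sin_pos_of_pos_of_lt_pi ha ha'
  have h1 : HasDerivAt (fun x : ℝ => (x * Real.cos x - Real.sin x) / (x ^ 2 * Real.sin x) +
      y * (Real.cos x / Real.sin x))
      (((1 * Real.cos a + a * (-Real.sin a) - Real.cos a) * (a ^ 2 * Real.sin a) -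
        (a * Real.cos a - Real.sin a) * ((2 : ℕ) * a ^ (2 - 1) * 1 * Real.sin a + a ^ 2 * Real.cos a)) /
        (a ^ 2 * Real.sin a) ^ 2 +
       y * ((-Real.sin a * Real.sin a - Real.cos a * Real.cos a) / Real.sin a ^ 2)) a :=
    ((((hasDerivAt_id a).mul hc).sub hs).div (((hasDerivAt_id a).pow 2).mul hs)
      (by have := hsp.ne'; have := ha.ne'; exact mul_ne_zero (pow_ne_zero 2 ha.ne') hsp.ne')).add
      ((hc.div hs hsp.ne').const_mul y)
  have h2 : phi y =ᶠ[𝓝 a] fun x : ℝ => (x * Real.cos x - Real.sin x) / (x ^ 2 * Real.sin x) +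
      y * (Real.cos x / Real.sin x) := by
    filter_upwards [Ioo_mem_nhds ha ha'] with x hx
    unfold phi
    rw [P_eq hx.1]
  refine (h1.congr_of_eventuallyEq h2).congr_deriv ?_
  have h3 := Real.sin_sq_add_cos_sq a
  have h4 : Real.cos a ^ 2 = 1 - Real.sin a ^ 2 := by linarith
  have h5 := hsp.ne'
  have h6 := ha.ne'
  norm_num
  field_simp
  ring_nf
  rw [h4]
  ring

lemma phi_anti {y : ℝ} (hy : 0 ≤ y) : StrictAntiOn (phi y) (Ioo 0 Real.pi) := by
  apply strictAntiOn_of_deriv_neg (convex_Ioo _ _)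
  · intro a ha
    exact (phi_deriv y ha.1 ha.2).continuousAt.continuousWithinAt
  · intro a ha
    rw [interior_Ioo] at ha
    rw [(phi_deriv y ha.1 ha.2).deriv]
    have h1 := aux3 ha.1 ha.2
    have h2 := Real.sin_pos_of_pos_of_lt_pi ha.1 ha.2
    have h3 := ha.1
    have h4 : 0 < (a ^ 2 + a * (Real.sin a * Real.cos a) - 2 * Real.sin a ^ 2) /
      (a ^ 3 * Real.sin a ^ 2) := by positivity
    have h5 : 0 ≤ y / Real.sin a ^ 2 := by positivity
    rw [neg_div]
    linarith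

lemma phi_zero (a : ℝ) : phi 0 a = P a := by unfold phi; rw [zero_mul, add_zero]

lemma P_lt {a : ℝ} (ha : 0 < a) (ha' : a < Real.pi) : P a < -1 / 3 := by
  have h1 : ∀ b ∈ Ioo (0 : ℝ) Real.pi, P b ≤ -1 / 3 := by
    intro b hb
    refine ge_of_tendsto tendsto_P ?_
    filter_upwards [Ioo_mem_nhdsGT hb.1] with c hc
    have := phi_anti (le_refl (0:ℝ)) ⟨hc.1, hc.2.trans hb.2⟩ hb hc.2
    rw [phi_zero, phi_zero] at this
    exact this.le
  have h2 := phi_anti (le_refl (0:ℝ)) (a := a / 2) (b := a) ⟨by linarith, by linarith⟩ ⟨ha, ha'⟩ (by linarith)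
  rw [phi_zero, phi_zero] at h2
  exact h2.trans_le (h1 _ ⟨by linarith, by linarith⟩)

lemma sin_tendsto_pi : Tendsto Real.sin (𝓝[<] Real.pi) (𝓝[>] 0) := by
  rw [tendsto_nhdsWithin_iff]
  constructor
  · have := (Real.continuous_sin.tendsto Real.pi).mono_left (nhdsWithin_le_nhds (s := Iio Real.pi))
    rwa [Real.sin_pi] at this
  · filter_upwards [Ioo_mem_nhdsLT Real.pi_pos] with a ha
    exact Real.sin_pos_of_pos_of_lt_pi ha.1 ha.2

lemma phi_tendsto_pi {y : ℝ} (hy : 0 ≤ y) : Tendsto (phi y) (𝓝[<] Real.pi) atBot := by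
  have h1 : Tendsto (fun a : ℝ => (a * Real.cos a - Real.sin a) / a ^ 2 + y * Real.cos a)
      (𝓝[<] Real.pi) (𝓝 ((Real.pi * Real.cos Real.pi - Real.sin Real.pi) / Real.pi ^ 2 +
        y * Real.cos Real.pi)) := by
    apply Tendsto.mono_left _ nhdsWithin_le_nhds
    apply ContinuousAt.tendsto
    have := Real.pi_pos.ne'
    fun_prop (disch := positivity)
  have h2 : (Real.pi * Real.cos Real.pi - Real.sin Real.pi) / Real.pi ^ 2 +
        y * Real.cos Real.pi < 0 := by
    rw [Real.cos_pi, Real.sin_pi]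
    have := Real.pi_pos
    have h3 : (Real.pi * -1 - 0) / Real.pi ^ 2 < 0 := div_neg_of_neg_of_pos (by linarith) (by positivity)
    linarith
  have h3 := sin_tendsto_pi.inv_tendsto_nhdsGT_zero
  have h4 := h1.neg_mul_atTop h2 h3
  refine h4.congr' ?_
  filter_upwards [Ioo_mem_nhdsLT Real.pi_pos] with a ha
  unfold phi
  rw [P_eq ha.1]
  have h4 := (Real.sin_pos_of_pos_of_lt_pi ha.1 ha.2).ne'
  have h5 := ha.1.ne'
  simp only [Pi.inv_apply]
  field_simp

lemma phi_tendsto_zero {y : ℝ} (hy : 0 < y) : Tendsto (phi y) (𝓝[>] 0) atTop := by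
  have h1 : Tendsto Real.sin (𝓝[>] 0) (𝓝[>] 0) := by
    rw [tendsto_nhdsWithin_iff]
    constructor
    · have := (Real.continuous_sin.tendsto 0).mono_left (nhdsWithin_le_nhds (s := Ioi (0:ℝ)))
      rwa [Real.sin_zero] at this
    · filter_upwards [Ioo_mem_nhdsGT Real.pi_pos] with a ha
      exact Real.sin_pos_of_pos_of_lt_pi ha.1 ha.2
  have h2 : Tendsto (fun a => y * Real.cos a) (𝓝[>] 0) (𝓝 (y * 1)) := by
    have := ((Real.continuous_cos.tendsto 0).mono_left (nhdsWithin_le_nhds (s := Ioi (0:ℝ)))).const_mul y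
    rwa [Real.cos_zero] at this
  have h3 := h2.pos_mul_atTop (by linarith) h1.inv_tendsto_nhdsGT_zero
  have h4 := tendsto_P.add_atTop h3
  refine h4.congr ?_
  intro a
  unfold phi
  simp only [Pi.inv_apply]
  rw [mul_assoc, div_eq_mul_inv]

lemma exists_phi {y x : ℝ} (hy : 0 ≤ y) (h : 0 < y ∨ x < -1 / 3) :
    ∃ a ∈ Ioo 0 Real.pi, phi y a = x := by
  have h1 : ∃ a₁ ∈ Ioo 0 Real.pi, x ≤ phi y a₁ := by
    have : ∀ᶠ a in 𝓝[>] (0:ℝ), x ≤ phi y a := by
      rcases h with h | h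
      · exact (phi_tendsto_zero h).eventually_ge_atTop x
      · rcases hy.lt_or_eq with h0 | h0
        · exact (phi_tendsto_zero h0).eventually_ge_atTop x
        · rw [← h0]
          have h2 : phi 0 = P := by funext a; exact phi_zero a
          rw [h2]
          exact (tendsto_P.eventually (lt_mem_nhds h)).mono fun a ha => ha.le
    obtain ⟨a, ha1, ha2⟩ := (this.and (Ioo_mem_nhdsGT Real.pi_pos)).exists
    exact ⟨a, ha2, ha1⟩
  have h2 : ∃ a₂ ∈ Ioo 0 Real.pi, phi y a₂ ≤ x := by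
    obtain ⟨a, ha1, ha2⟩ := (((phi_tendsto_pi hy).eventually_le_atBot x).and
      (Ioo_mem_nhdsLT Real.pi_pos)).exists
    exact ⟨a, ha2, ha1⟩
  obtain ⟨a₁, ha₁, h3⟩ := h1
  obtain ⟨a₂, ha₂, h4⟩ := h2
  have hc : ContinuousOn (phi y) (Ioo 0 Real.pi) := fun a ha =>
    (phi_deriv y ha.1 ha.2).continuousAt.continuousWithinAt
  exact (isPreconnected_Ioo.intermediate_value ha₂ ha₁ hc) ⟨h4, h3⟩

/-- the parameters of `(x, y)`, `y ≥ 0` -/
def Par (x y a ρ : ℝ) : Prop :=
  0 ≤ a ∧ a < Real.pi ∧ 0 ≤ ρ ∧ x = P a + ρ * Real.cos a ∧ y = ρ * Real.sin a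

lemma P_zero : P 0 = -1 / 3 := by unfold P; rw [if_pos rfl]

lemma Par.phi_eq {x y a ρ : ℝ} (h : Par x y a ρ) (ha : 0 < a) : phi y a = x ∧ ρ = y / Real.sin a := by
  obtain ⟨_, h2, _, h4, h5⟩ := h
  have hs := (Real.sin_pos_of_pos_of_lt_pi ha h2).ne'
  constructor
  · unfold phi
    rw [h4, h5]
    field_simp
  · rw [h5]; field_simp

lemma exists_par (x : ℝ) {y : ℝ} (hy : 0 ≤ y) : ∃ a ρ, Par x y a ρ := by
  by_cases h : 0 < y ∨ x < -1 / 3
  · obtain ⟨a, ha, he⟩ := exists_phi hy h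
    have hs := Real.sin_pos_of_pos_of_lt_pi ha.1 ha.2
    refine ⟨a, y / Real.sin a, ha.1.le, ha.2, by positivity, ?_, ?_⟩
    · rw [← he]; unfold phi; ring
    · field_simp
  · push Not at h
    have hy0 : y = 0 := le_antisymm h.1 hy
    refine ⟨0, x + 1 / 3, le_rfl, Real.pi_pos, by linarith [h.2], ?_, ?_⟩
    · rw [P_zero, Real.cos_zero]; ring
    · rw [Real.sin_zero, mul_zero, hy0]

lemma par_unique {x y a ρ a' ρ' : ℝ} (h : Par x y a ρ) (h' : Par x y a' ρ') : a = a' ∧ ρ = ρ' := by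
  have hy : 0 ≤ y := by
    obtain ⟨h1, h2, h3, h4, h5⟩ := h
    rw [h5]
    exact mul_nonneg h3 (Real.sin_nonneg_of_nonneg_of_le_pi h1 h2.le)
  have key : ∀ {b r b' r' : ℝ}, Par x y b r → Par x y b' r' → 0 < b → b' = 0 → False := by
    intro b r b' r' hb hb' hb0 hb'0
    obtain ⟨_, _, hr', h4', h5'⟩ := hb'
    rw [hb'0, Real.sin_zero, mul_zero] at h5'
    rw [hb'0, P_zero, Real.cos_zero, mul_one] at h4'
    have h6 := (hb.phi_eq hb0).1
    rw [h5', phi_zero] at h6
    have h7 := P_lt hb0 hb.2.1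
    linarith
  rcases h.1.lt_or_eq with h0 | h0
  · rcases h'.1.lt_or_eq with h0' | h0'
    · have e1 := h.phi_eq h0
      have e2 := h'.phi_eq h0'
      have e3 : a = a' := by
        by_contra hne
        rcases lt_or_gt_of_ne hne with h3 | h3
        · have := phi_anti hy ⟨h0, h.2.1⟩ ⟨h0', h'.2.1⟩ h3
          rw [e1.1, e2.1] at this
          exact lt_irrefl _ this
        · have := phi_anti hy ⟨h0', h'.2.1⟩ ⟨h0, h.2.1⟩ h3
          rw [e1.1, e2.1] at this
          exact lt_irrefl _ this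
      refine ⟨e3, ?_⟩
      rw [e1.2, e2.2, e3]
    · exact (key h h' h0 h0'.symm).elim
  · rcases h'.1.lt_or_eq with h0' | h0'
    · exact (key h' h h0' h0.symm).elim
    · refine ⟨by rw [← h0, ← h0'], ?_⟩
      have e1 := h.2.2.2.1
      have e2 := h'.2.2.2.1
      rw [← h0, Real.cos_zero, mul_one] at e1
      rw [← h0', Real.cos_zero, mul_one] at e2
      linarith

end Pool.Agent.H390.BL
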