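import Mathlib
import Pool.Agent.H390.BL.Param

/-!
The extremal functions and the norm.
-/

set_option autoImplicit false

open Complex Filter Topology Set

namespace Pool.Agent.H390.BL

lemma norm_sin_le (w : ℂ) : ‖Complex.sin w‖ ≤ Real.exp |w.im| * ‖w‖ := by
  have hconv : Convex ℝ {z : ℂ | |z.im| ≤ |w.im|} := by
    have : {z : ℂ | |z.im| ≤ |w.im|} = Complex.imLm ⁻¹' (Icc (-|w.im|) |w.im|) := by
      ext z; simp [abs_le]
    rw [this]
    exact (convex_Icc _ _).linear_preimage _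
  have h := hconv.norm_image_sub_le_of_norm_deriv_le (f := Complex.sin) (C := Real.exp |w.im|)
    (x := 0) (y := w) (fun z _ => Complex.differentiableAt_sin) (fun z hz => by
      rw [Complex.deriv_sin]
      exact (norm_cos_le z).trans (Real.exp_le_exp.mpr hz)) (by simp) (by simp)
  simpa using h

lemma E_sq_le (w : ℂ) : ‖E (w ^ 2)‖ ≤ Real.exp |w.im| := by
  rcases eq_or_ne w 0 with h | h
  · rw [h]
    unfold E
    rw [hs_sq sinc_even, dslope_same, Complex.deriv_sin, Complex.cos_zero]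
    simp
  · rw [E_sq h, norm_div, div_le_iff₀ (norm_pos_iff.mpr h)]
    exact norm_sin_le w

lemma E_growth (a : ℝ) (z : ℂ) : ‖E (z ^ 2 + a ^ 2)‖ ≤ Real.exp |z.im| := by
  set w : ℂ := (z ^ 2 + a ^ 2) ^ (((2 : ℕ) : ℂ)⁻¹) with hw
  have hw2 : w ^ 2 = z ^ 2 + a ^ 2 := sqrt_sq _
  rw [← hw2]
  refine (E_sq_le w).trans (Real.exp_le_exp.mpr ?_)
  exact abs_im_le (sq_nonneg a) (by rw [hw2]; push_cast; ring)

/-- the extremal function, `s = ± 1` -/
noncomputable def ext (s a : ℝ) (z : ℂ) : ℂ := Cc (z ^ 2 + a ^ 2) + I * s * a * E (z ^ 2 + a ^ 2)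

lemma ext_diff (s a : ℝ) : Differentiable ℂ (ext s a) := by
  unfold ext
  exact (Cc_diff.comp (by fun_prop : Differentiable ℂ fun z : ℂ => z ^ 2 + (a : ℂ) ^ 2)).add
    ((E_diff.comp (by fun_prop : Differentiable ℂ fun z : ℂ => z ^ 2 + (a : ℂ) ^ 2)).const_mul _)

lemma ext_expType (s a : ℝ) : ExpType 1 (ext s a) := by
  refine ⟨ext_diff s a, fun ε hε => ⟨1 + |s| * |a|, fun z => ?_⟩⟩
  have h1 := Cc_growth a z
  have h2 := E_growth a z
  have h3 : Real.exp |z.im| ≤ Real.exp ((1 + ε) * ‖z‖) := by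
    apply Real.exp_le_exp.mpr
    have := abs_im_le_norm z
    nlinarith [norm_nonneg z]
  unfold ext
  refine (norm_add_le _ _).trans ?_
  rw [norm_mul, norm_mul, norm_mul, norm_I, one_mul, norm_real, norm_real, Real.norm_eq_abs,
    Real.norm_eq_abs]
  have h4 : |s| * |a| * ‖E (z ^ 2 + a ^ 2)‖ ≤ |s| * |a| * Real.exp ((1 + ε) * ‖z‖) :=
    mul_le_mul_of_nonneg_left (h2.trans h3) (by positivity)
  linarith [h1.trans h3]

lemma ext_norm_le {s a : ℝ} (hs : s ^ 2 = 1) (ha : 0 < a) (x : ℝ) : ‖ext s a x‖ ≤ 1 := by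
  have hpos : 0 < x ^ 2 + a ^ 2 := by positivity
  set t : ℝ := Real.sqrt (x ^ 2 + a ^ 2) with ht
  have ht0 : 0 < t := Real.sqrt_pos.mpr hpos
  have ht2 : t ^ 2 = x ^ 2 + a ^ 2 := Real.sq_sqrt hpos.le
  have e : ((x : ℂ) ^ 2 + (a : ℂ) ^ 2) = (t : ℂ) ^ 2 := by
    rw [← ofReal_pow, ← ofReal_pow, ← ofReal_pow, ← ofReal_add, ht2]
  have htc : (t : ℂ) ≠ 0 := ofReal_ne_zero.mpr ht0.ne'
  unfold ext
  rw [e, Cc_sq, E_sq htc]
  have e2 : Complex.cos (t : ℂ) + I * s * a * (Complex.sin t / t) =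
      ((Real.cos t : ℝ) : ℂ) + ((s * a * (Real.sin t / t) : ℝ) : ℂ) * I := by
    push_cast; ring
  rw [e2]
  have h1 : ‖((Real.cos t : ℝ) : ℂ) + ((s * a * (Real.sin t / t) : ℝ) : ℂ) * I‖ ^ 2 ≤ 1 ^ 2 := by
    rw [← Complex.normSq_eq_norm_sq, Complex.normSq_add_mul_I]
    have h2 := Real.sin_sq_add_cos_sq t
    have h3 : (s * a * (Real.sin t / t)) ^ 2 = a ^ 2 * Real.sin t ^ 2 / t ^ 2 := by
      rw [mul_pow, mul_pow, hs, div_pow]; ring
    have h4 : a ^ 2 * Real.sin t ^ 2 / t ^ 2 ≤ Real.sin t ^ 2 := by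
      rw [div_le_iff₀ (by positivity), ht2]
      nlinarith [mul_nonneg (sq_nonneg x) (sq_nonneg (Real.sin t))]
    rw [h3]; linarith
  exact (pow_le_pow_iff_left₀ (norm_nonneg _) zero_le_one two_ne_zero).mp h1

lemma ext_zero {s a : ℝ} (ha : 0 < a) : ext s a 0 = Complex.cos a + I * s * Complex.sin a := by
  have h1 : (a : ℂ) ≠ 0 := ofReal_ne_zero.mpr ha.ne'
  unfold ext
  rw [zero_pow two_ne_zero, zero_add, Cc_sq, E_sq h1]
  field_simp

lemma ext_deriv2 {s a : ℝ} (ha : 0 < a) : deriv (deriv (ext s a)) 0 =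
    -Complex.sin a / a + I * s * ((a * Complex.cos a - Complex.sin a) / a ^ 2) := by
  have h1 : (a : ℂ) ≠ 0 := ofReal_ne_zero.mpr ha.ne'
  set h : ℂ → ℂ := fun t => Cc (t + a ^ 2) + I * s * a * E (t + a ^ 2) with hh
  have hd : Differentiable ℂ h := (Cc_diff.comp (by fun_prop)).add ((E_diff.comp (by fun_prop)).const_mul _)
  have d1 : deriv (ext s a) = fun z => deriv h (z ^ 2) * (2 * z) := by
    funext z
    have h2 : HasDerivAt (fun z : ℂ => h (z ^ 2)) (deriv h (z ^ 2) * (((2 : ℕ) : ℂ) * z ^ (2 - 1))) z :=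
      HasDerivAt.comp (h := fun z : ℂ => z ^ 2) z (hd (z ^ 2)).hasDerivAt (hasDerivAt_pow 2 z)
    have h3 : ext s a = fun z : ℂ => h (z ^ 2) := rfl
    rw [h3, h2.deriv]
    norm_num
  have hdd := deriv_diff hd
  have h3 : HasDerivAt (fun z : ℂ => deriv h (z ^ 2) * (2 * z)) (2 * deriv h 0) 0 := by
    have h2 : HasDerivAt (fun z : ℂ => deriv h (z ^ 2))
        (deriv (deriv h) ((0 : ℂ) ^ 2) * (((2 : ℕ) : ℂ) * 0 ^ (2 - 1))) 0 :=
      HasDerivAt.comp (h := fun z : ℂ => z ^ 2) 0 (hdd ((0 : ℂ) ^ 2)).hasDerivAt (hasDerivAt_pow 2 0)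
    have h3 : HasDerivAt (fun z : ℂ => 2 * z) (2 * 1) (0 : ℂ) := (hasDerivAt_id (0 : ℂ)).const_mul 2
    refine (h2.mul h3).congr_deriv ?_
    norm_num
    ring
  rw [d1, h3.deriv]
  have h4 : deriv h 0 = deriv Cc ((a : ℂ) ^ 2) + I * s * a * deriv E ((a : ℂ) ^ 2) := by
    have h5 : HasDerivAt (fun t : ℂ => t + (a : ℂ) ^ 2) 1 0 := (hasDerivAt_id (0 : ℂ)).add_const _
    have h6 : HasDerivAt Cc (deriv Cc ((a : ℂ) ^ 2)) (0 + (a : ℂ) ^ 2) := by
      rw [zero_add]; exact (Cc_diff _).hasDerivAt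
    have h7 : HasDerivAt E (deriv E ((a : ℂ) ^ 2)) (0 + (a : ℂ) ^ 2) := by
      rw [zero_add]; exact (E_diff _).hasDerivAt
    have h8 : HasDerivAt h (deriv Cc ((a : ℂ) ^ 2) * 1 + I * s * a * (deriv E ((a : ℂ) ^ 2) * 1)) 0 :=
      (HasDerivAt.comp (h := fun t : ℂ => t + (a : ℂ) ^ 2) 0 h6 h5).add
        ((HasDerivAt.comp (h := fun t : ℂ => t + (a : ℂ) ^ 2) 0 h7 h5).const_mul (I * s * a))
    rw [h8.deriv, mul_one, mul_one]
  rw [h4, Cc_deriv ha, E_deriv ha]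
  field_simp

/-- The value of the functional on the extremal function. -/
lemma ext_value {s a ρ : ℝ} (hs : s ^ 2 = 1) (ha : 0 < a) (ha' : a < Real.pi) :
    -(deriv (deriv (ext s a)) 0) + ((P a : ℂ) + ρ * (Complex.cos a - I * s * Complex.sin a)) * ext s a 0 =
      ((N0 a + ρ : ℝ) : ℂ) := by
  rw [ext_zero ha, ext_deriv2 ha, N0_eq' ha ha', P_eq ha]
  have h1 : (a : ℂ) ≠ 0 := ofReal_ne_zero.mpr ha.ne'
  have h2 := sin_a_ne ha ha'
  have h3 := Complex.sin_sq_add_cos_sq (a : ℂ)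
  have h4 : ((s : ℂ)) ^ 2 = 1 := by rw [← ofReal_pow, hs]; simp
  have h5 := I_sq
  push_cast
  field_simp
  linear_combination (ρ : ℂ) * a ^ 2 * Complex.sin a * h3 +
    (-(ρ : ℂ) * a ^ 2 * Complex.sin a ^ 3 * s ^ 2) * h5 + (ρ : ℂ) * a ^ 2 * Complex.sin a ^ 3 * h4

end Pool.Agent.H390.BL
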