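import Mathlib
import Pool.Agent.H390.BL.Lower

/-!
The norm of `-y'' + lam y` on the Bernstein space.
-/

set_option autoImplicit false

open Complex Filter Topology Set

namespace Pool.Agent.H390.BL

/-- The Bernstein space. -/
def BS (σ : ℝ) : Set (ℝ → ℂ) :=
  {f | (∃ F : ℂ → ℂ, ExpType σ F ∧ ∀ x : ℝ, f x = F x) ∧ ∃ M : ℝ, ∀ x : ℝ, ‖f x‖ ≤ M}

noncomputable def TT (lam : ℂ) (f : ℝ → ℂ) (x : ℝ) : ℂ := -deriv (deriv f) x + lam * f x

noncomputable def supN (f : ℝ → ℂ) : ℝ := ⨆ x : ℝ, ‖f x‖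

/-- admissible constants -/
def Adm (σ : ℝ) (lam : ℂ) : Set ℝ := {K : ℝ | ∀ f ∈ BS σ, ∀ x : ℝ, ‖TT lam f x‖ ≤ K * supN f}

def IsPar (σ : ℝ) (lam : ℂ) (a ρ : ℝ) : Prop :=
  0 ≤ a ∧ a < Real.pi ∧ 0 ≤ ρ ∧ lam.re = σ ^ 2 * (P a + ρ * Real.cos a) ∧
    |lam.im| = σ ^ 2 * (ρ * Real.sin a)

lemma deriv_ofReal {F : ℂ → ℂ} (hF : Differentiable ℂ F) :
    deriv (fun x : ℝ => F x) = fun x : ℝ => deriv F x := by
  funext x
  exact ((hF (x : ℂ)).hasDerivAt.comp_ofReal).deriv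

lemma deriv2_ofReal {F : ℂ → ℂ} (hF : Differentiable ℂ F) :
    deriv (deriv (fun x : ℝ => F x)) = fun x : ℝ => deriv (deriv F) x := by
  rw [deriv_ofReal hF, deriv_ofReal (deriv_diff hF)]

lemma deriv2_scale {F : ℂ → ℂ} (hF : Differentiable ℂ F) (c z : ℂ) :
    deriv (deriv (fun w => F (c * w))) z = c ^ 2 * deriv (deriv F) (c * z) := by
  have h1 : ∀ G : ℂ → ℂ, Differentiable ℂ G → deriv (fun w => G (c * w)) = fun w => c * deriv G (c * w) := by
    intro G hG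
    funext w
    have h2 : HasDerivAt (fun w : ℂ => c * w) (c * 1) w := (hasDerivAt_id w).const_mul c
    have h3 : HasDerivAt (fun w => G (c * w)) (deriv G (c * w) * (c * 1)) w :=
      HasDerivAt.comp (h := fun w : ℂ => c * w) w (hG (c * w)).hasDerivAt h2
    rw [h3.deriv]; ring
  rw [h1 F hF]
  have h2 := h1 (deriv F) (deriv_diff hF)
  have h3 : deriv (fun w => c * deriv F (c * w)) z = c * deriv (fun w => deriv F (c * w)) z :=
    deriv_const_mul _ (((deriv_diff hF).comp (by fun_prop : Differentiable ℂ fun w : ℂ => c * w)) z)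
  rw [h3, h2]
  ring

lemma expType_scale {τ σ : ℝ} {F : ℂ → ℂ} (hF : ExpType τ F) {c : ℝ} (hc : 0 < c) (h : σ = c * τ) :
    ExpType σ (fun z => F (c * z)) := by
  refine ⟨hF.1.comp (by fun_prop), fun ε hε => ?_⟩
  obtain ⟨A, hA⟩ := hF.2 (ε / c) (by positivity)
  refine ⟨A, fun z => ?_⟩
  have h1 := hA (c * z)
  rw [norm_mul, norm_real, Real.norm_eq_abs, abs_of_pos hc] at h1
  have e : (τ + ε / c) * (c * ‖z‖) = (σ + ε) * ‖z‖ := by
    rw [h]; field_simp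
  rwa [e] at h1

lemma le_supN {σ : ℝ} {f : ℝ → ℂ} (hf : f ∈ BS σ) (x : ℝ) : ‖f x‖ ≤ supN f := by
  obtain ⟨_, M, hM⟩ := hf
  exact le_ciSup (f := fun x => ‖f x‖) ⟨M, by rintro _ ⟨y, rfl⟩; exact hM y⟩ x

lemma lam_sub {σ : ℝ} {lam : ℂ} {a ρ : ℝ} (h : IsPar σ lam a ρ) :
    ‖lam - ((σ ^ 2 * P a : ℝ) : ℂ)‖ = σ ^ 2 * ρ := by
  obtain ⟨_, _, h3, h4, h5⟩ := h
  have h6 : ‖lam - ((σ ^ 2 * P a : ℝ) : ℂ)‖ ^ 2 = (σ ^ 2 * ρ) ^ 2 := by
    rw [← Complex.normSq_eq_norm_sq, Complex.normSq_apply]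
    simp only [sub_re, ofReal_re, sub_im, ofReal_im, sub_zero]
    have h7 : lam.im * lam.im = (σ ^ 2 * (ρ * Real.sin a)) ^ 2 := by
      rw [← h5, sq_abs]; ring
    rw [h7, h4]
    have h8 := Real.sin_sq_add_cos_sq a
    linear_combination (σ ^ 4 * ρ ^ 2) * h8
  rwa [pow_left_inj₀ (norm_nonneg _) (by positivity) two_ne_zero] at h6

theorem upper {σ : ℝ} (hσ : 0 < σ) {lam : ℂ} {a ρ : ℝ} (h : IsPar σ lam a ρ) :
    σ ^ 2 * (N0 a + ρ) ∈ Adm σ lam := by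
  intro f hf x
  have hsup := le_supN hf
  obtain ⟨⟨F, hF, hfF⟩, _⟩ := hf
  have hf' : f = fun x : ℝ => F x := funext hfF
  have hσc : (σ : ℂ) ≠ 0 := ofReal_ne_zero.mpr hσ.ne'
  set F1 : ℂ → ℂ := fun z => F (((σ⁻¹ : ℝ) : ℂ) * z) with hF1
  have hF1e : ExpType 1 F1 := expType_scale hF (inv_pos.mpr hσ) (by field_simp)
  have hM : ∀ y : ℝ, ‖F1 y‖ ≤ supN f := by
    intro y
    have := hsup (σ⁻¹ * y)
    rw [hfF] at this
    simp only [hF1]
    rw [← ofReal_mul]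
    exact this
  have h1 := upper_one' h.1 h.2.1 hF1e hM (σ * x)
  have e1 : F1 ((σ * x : ℝ) : ℂ) = F x := by
    simp only [hF1]
    congr 1
    push_cast
    field_simp
  have e2 : deriv (deriv F1) ((σ * x : ℝ) : ℂ) = deriv (deriv F) x / σ ^ 2 := by
    simp only [hF1]
    rw [deriv2_scale hF.1]
    have : ((σ⁻¹ : ℝ) : ℂ) * ((σ * x : ℝ) : ℂ) = x := by
      push_cast; field_simp
    rw [this]
    push_cast
    field_simp
  rw [e1, e2] at h1
  have e3 : TT lam f x = (σ : ℂ) ^ 2 * (-(deriv (deriv F) x / σ ^ 2) + (P a : ℂ) * F x) +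
      (lam - ((σ ^ 2 * P a : ℝ) : ℂ)) * F x := by
    unfold TT
    rw [hf', deriv2_ofReal hF.1]
    push_cast
    field_simp
    ring
  rw [e3]
  refine (norm_add_le _ _).trans ?_
  rw [norm_mul, norm_mul, norm_pow, norm_real, Real.norm_eq_abs, abs_of_pos hσ, lam_sub h]
  have h2 : ‖F x‖ ≤ supN f := by rw [← hfF]; exact hsup x
  have h3 : 0 ≤ σ ^ 2 * ρ := mul_nonneg (sq_nonneg _) h.2.2.1
  have h4 : σ ^ 2 * ‖-(deriv (deriv F) x / σ ^ 2) + (P a : ℂ) * F x‖ ≤ σ ^ 2 * (N0 a * supN f) := by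
    gcongr
  have h5 : σ ^ 2 * ρ * ‖F x‖ ≤ σ ^ 2 * ρ * supN f := mul_le_mul_of_nonneg_left h2 h3
  linarith

lemma eq_of_re_im (z : ℂ) (x y : ℝ) (h1 : z.re = x) (h2 : z.im = y) : z = (x : ℂ) + (y : ℂ) * I := by
  rw [← h1, ← h2]; exact (re_add_im z).symm

/-- From a function of type `1`. -/
lemma lower_of {σ : ℝ} (hσ : 0 < σ) {lam : ℂ} {G : ℂ → ℂ} (hG : ExpType 1 G)
    (h1 : ∀ x : ℝ, ‖G x‖ ≤ 1) (h0 : ‖G 0‖ = 1) :
    (fun x : ℝ => G (σ * x)) ∈ BS σ ∧ supN (fun x : ℝ => G (σ * x)) = 1 ∧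
      TT lam (fun x : ℝ => G (σ * x)) 0 = -(σ ^ 2 * deriv (deriv G) 0) + lam * G 0 := by
  have hmem : (fun x : ℝ => G (σ * x)) ∈ BS σ := by
    refine ⟨⟨fun z => G (σ * z), expType_scale hG hσ (by ring), fun x => rfl⟩, 1, fun x => ?_⟩
    have := h1 (σ * x)
    push_cast at this
    exact this
  refine ⟨hmem, ?_, ?_⟩
  · apply le_antisymm
    · apply ciSup_le
      intro x
      have := h1 (σ * x)
      push_cast at this
      exact this
    · have := le_supN hmem 0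
      simp only [ofReal_zero, mul_zero] at this
      rwa [h0] at this
  · unfold TT
    have hd : Differentiable ℂ (fun z : ℂ => G (σ * z)) :=
      hG.1.comp (by fun_prop : Differentiable ℂ fun z : ℂ => (σ : ℂ) * z)
    have e := congrFun (deriv2_ofReal hd) 0
    have e2 := deriv2_scale hG.1 (σ : ℂ) 0
    rw [mul_zero] at e2
    rw [e, ofReal_zero, e2]
    simp

theorem lower {σ : ℝ} (hσ : 0 < σ) {lam : ℂ} {a ρ : ℝ} (h : IsPar σ lam a ρ) :
    ∃ f ∈ BS σ, supN f = 1 ∧ ‖TT lam f 0‖ = σ ^ 2 * (N0 a + ρ) := by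
  obtain ⟨ha, ha', hρ, hre, him⟩ := h
  rcases ha.lt_or_eq with ha0 | ha0
  · -- `0 < a`
    obtain ⟨s, hs, hlam⟩ : ∃ s : ℝ, s ^ 2 = 1 ∧
        lam = (σ : ℂ) ^ 2 * ((P a : ℂ) + ρ * (Complex.cos a - I * s * Complex.sin a)) := by
      rcases le_or_gt lam.im 0 with h1 | h1
      · refine ⟨1, by norm_num, ?_⟩
        rw [abs_of_nonpos h1] at him
        rw [eq_of_re_im lam _ (-(σ ^ 2 * (ρ * Real.sin a))) hre (by linarith)]
        push_cast; ring
      · refine ⟨-1, by norm_num, ?_⟩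
        rw [abs_of_pos h1] at him
        rw [eq_of_re_im lam _ _ hre him]
        push_cast; ring
    have h0 : ‖ext s a 0‖ = 1 := by
      rw [ext_zero ha0]
      have e : Complex.cos a + I * s * Complex.sin a =
          ((Real.cos a : ℝ) : ℂ) + ((s * Real.sin a : ℝ) : ℂ) * I := by push_cast; ring
      have h2 : ‖Complex.cos (a : ℂ) + I * s * Complex.sin a‖ ^ 2 = 1 := by
        rw [e, ← Complex.normSq_eq_norm_sq, Complex.normSq_add_mul_I]
        have := Real.sin_sq_add_cos_sq a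
        rw [mul_pow, hs]; linarith
      rwa [pow_eq_one_iff_of_nonneg (norm_nonneg _) two_ne_zero] at h2
    obtain ⟨m1, m2, m3⟩ := lower_of hσ (lam := lam) (ext_expType s a) (ext_norm_le hs ha0) h0
    refine ⟨_, m1, m2, ?_⟩
    rw [m3]
    have h3 := ext_value (ρ := ρ) hs ha0 ha'
    have h4 : -((σ : ℂ) ^ 2 * deriv (deriv (ext s a)) 0) + lam * ext s a 0 =
        ((σ ^ 2 * (N0 a + ρ) : ℝ) : ℂ) := by
      rw [hlam]
      push_cast
      push_cast at h3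
      linear_combination ((σ : ℂ) ^ 2) * h3
    have hN : 0 ≤ N0 a := by
      rw [N0_eq ha0]
      have h5 := Real.sin_pos_of_pos_of_lt_pi ha0 ha'
      have h6 : Real.sin a * Real.cos a ≤ a := by
        have h7 := Real.sin_lt ha0
        have h8 := Real.cos_le_one a
        nlinarith
      apply div_nonneg (by linarith) (by positivity)
    rw [h4, norm_real, Real.norm_eq_abs, abs_of_nonneg (by positivity)]
  · -- `a = 0`
    rw [← ha0] at hre him ⊢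
    rw [P_zero, Real.cos_zero, mul_one] at hre
    rw [Real.sin_zero, mul_zero, mul_zero, abs_eq_zero] at him
    have hc1 : ExpType 1 Complex.cos := by
      refine ⟨Complex.differentiable_cos, fun ε hε => ⟨1, fun z => ?_⟩⟩
      rw [one_mul]
      refine (norm_cos_le z).trans (Real.exp_le_exp.mpr ?_)
      have := abs_im_le_norm z
      nlinarith [norm_nonneg z]
    have hc2 : ∀ x : ℝ, ‖Complex.cos (x : ℂ)‖ ≤ 1 := by
      intro x
      rw [← ofReal_cos, norm_real, Real.norm_eq_abs]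
      exact Real.abs_cos_le_one x
    obtain ⟨m1, m2, m3⟩ := lower_of hσ (lam := lam) hc1 hc2 (by rw [Complex.cos_zero, norm_one])
    refine ⟨_, m1, m2, ?_⟩
    rw [m3]
    have h4 : deriv (deriv Complex.cos) 0 = -1 := by
      have : deriv Complex.cos = fun z => -Complex.sin z := by funext z; exact Complex.deriv_cos
      rw [this]
      have h5 := (Complex.hasDerivAt_sin (0 : ℂ)).neg
      have h6 : HasDerivAt (fun z : ℂ => -Complex.sin z) (-Complex.cos 0) 0 := h5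
      rw [h6.deriv, Complex.cos_zero]
    have h5 : lam = ((σ ^ 2 * (-1 / 3 + ρ) : ℝ) : ℂ) := by
      rw [eq_of_re_im lam _ _ hre him, ofReal_zero, zero_mul, add_zero]
    have e2 : N0 0 = 2 / 3 := by unfold N0; rw [if_pos rfl]
    rw [h4, h5, Complex.cos_zero, e2]
    have h6 : -((σ : ℂ) ^ 2 * (-1)) + ((σ ^ 2 * (-1 / 3 + ρ) : ℝ) : ℂ) * 1 =
        ((σ ^ 2 * (2 / 3 + ρ) : ℝ) : ℂ) := by push_cast; ring
    rw [h6, norm_real, Real.norm_eq_abs, abs_of_nonneg (by positivity)]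

theorem isLeast_adm {σ : ℝ} (hσ : 0 < σ) {lam : ℂ} {a ρ : ℝ} (h : IsPar σ lam a ρ) :
    IsLeast (Adm σ lam) (σ ^ 2 * (N0 a + ρ)) := by
  refine ⟨upper hσ h, ?_⟩
  intro K hK
  obtain ⟨f, hf, h1, h2⟩ := lower hσ h
  have := hK f hf 0
  rwa [h1, mul_one, h2] at this

theorem exists_unique_par {σ : ℝ} (hσ : 0 < σ) (lam : ℂ) :
    ∃! p : ℝ × ℝ, IsPar σ lam p.1 p.2 := by
  have hiff : ∀ a ρ, IsPar σ lam a ρ ↔ Par (lam.re / σ ^ 2) (|lam.im| / σ ^ 2) a ρ := by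
    intro a ρ
    unfold IsPar Par
    rw [div_eq_iff (by positivity), div_eq_iff (by positivity), mul_comm (P a + ρ * Real.cos a),
      mul_comm (ρ * Real.sin a)]
  obtain ⟨a, ρ, h⟩ := exists_par (lam.re / σ ^ 2) (y := |lam.im| / σ ^ 2) (by positivity)
  refine ⟨(a, ρ), (hiff a ρ).mpr h, ?_⟩
  rintro ⟨a', ρ'⟩ h'
  have := par_unique ((hiff a' ρ').mp h') h
  exact Prod.ext this.1 this.2

end Pool.Agent.H390.BL
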